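import Mathlib

/-!
Monomial valuations of polynomial rings.
-/

set_option autoImplicit false
set_option linter.unusedSectionVars false

open Finset

namespace Pool.Agent.V5helper83.PS

open MvPolynomial

variable {K : Type} [Field K] {V : Type} [Fintype V] [DecidableEq V]

/-- the weight of a monomial -/
noncomputable def mw (ρ : V → NNReal) (m : V →₀ ℕ) : NNReal := ∏ i, ρ i ^ m i

theorem mw_add (ρ : V → NNReal) (a b : V →₀ ℕ) : mw ρ (a + b) = mw ρ a * mw ρ b := by
  unfold mw
  rw [← Finset.prod_mul_distrib]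
  exact Finset.prod_congr rfl fun i _ => by rw [Finsupp.add_apply, pow_add]

theorem mw_zero (ρ : V → NNReal) : mw ρ 0 = 1 := by
  simp [mw]

theorem mw_single (ρ : V → NNReal) (i : V) : mw ρ (Finsupp.single i 1) = ρ i := by
  classical
  unfold mw
  rw [Finset.prod_eq_single i]
  · simp
  · intro b _ hb
    rw [Finsupp.single_eq_of_ne hb, pow_zero]
  · intro h
    exact absurd (Finset.mem_univ _) h

theorem mw_pos {ρ : V → NNReal} (hρ : ∀ i, 0 < ρ i) (m : V →₀ ℕ) : 0 < mw ρ m :=
  Finset.prod_pos fun i _ => pow_pos (hρ i) _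

/-- the monomial valuation -/
noncomputable def mW (ρ : V → NNReal) (P : MvPolynomial (V) K) : NNReal :=
  P.support.sup (mw ρ)

theorem le_mW (ρ : V → NNReal) {P : MvPolynomial (V) K} {m : V →₀ ℕ}
    (hm : coeff m P ≠ 0) : mw ρ m ≤ mW ρ P :=
  Finset.le_sup (f := mw ρ) (mem_support_iff.2 hm)

theorem mW_le (ρ : V → NNReal) {P : MvPolynomial (V) K} {r : NNReal}
    (h : ∀ m, coeff m P ≠ 0 → mw ρ m ≤ r) : mW ρ P ≤ r :=
  Finset.sup_le fun m hm => h m (mem_support_iff.1 hm)

theorem mW_zero (ρ : V → NNReal) : mW ρ (0 : MvPolynomial (V) K) = 0 := by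
  simp [mW]

theorem mW_C (ρ : V → NNReal) {c : K} (hc : c ≠ 0) :
    mW ρ (C c : MvPolynomial (V) K) = 1 := by
  classical
  apply le_antisymm
  · refine mW_le ρ fun m hm => ?_
    rw [coeff_C] at hm
    have : (0 : V →₀ ℕ) = m := by
      by_contra h
      exact hm (if_neg h)
    rw [← this, mw_zero]
  · rw [← mw_zero ρ]
    refine le_mW ρ ?_
    rw [coeff_C, if_pos rfl]
    exact hc

theorem mW_add (ρ : V → NNReal) (P Q : MvPolynomial (V) K) :
    mW ρ (P + Q) ≤ max (mW ρ P) (mW ρ Q) := by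
  refine mW_le ρ fun m hm => ?_
  rw [coeff_add] at hm
  by_cases h : coeff m P = 0
  · rw [h, zero_add] at hm
    exact (le_mW ρ hm).trans (le_max_right _ _)
  · exact (le_mW ρ h).trans (le_max_left _ _)

theorem mW_sum (ρ : V → NNReal) {ι : Type} (s : Finset ι) (P : ι → MvPolynomial (V) K)
    {r : NNReal} (h : ∀ i ∈ s, mW ρ (P i) ≤ r) : mW ρ (∑ i ∈ s, P i) ≤ r := by
  classical
  induction s using Finset.induction_on with
  | empty => rw [Finset.sum_empty, mW_zero]; exact zero_le
  | insert a s ha ih =>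
    rw [Finset.sum_insert ha]
    refine (mW_add ρ _ _).trans (max_le (h a (Finset.mem_insert_self _ _)) (ih fun i hi => ?_))
    exact h i (Finset.mem_insert_of_mem hi)

theorem exists_mW {ρ : V → NNReal} {P : MvPolynomial (V) K} (hP : P ≠ 0) :
    ∃ m, coeff m P ≠ 0 ∧ mw ρ m = mW ρ P := by
  have hne : P.support.Nonempty := by
    rw [Finset.nonempty_iff_ne_empty, Ne, support_eq_empty]
    exact hP
  obtain ⟨m, hm, h⟩ := Finset.exists_mem_eq_sup P.support hne (mw ρ)
  exact ⟨m, mem_support_iff.1 hm, h.symm⟩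

theorem mW_pos {ρ : V → NNReal} (hρ : ∀ i, 0 < ρ i) {P : MvPolynomial (V) K}
    (hP : P ≠ 0) : 0 < mW ρ P := by
  obtain ⟨m, _, h⟩ := exists_mW (ρ := ρ) hP
  rw [← h]
  exact mw_pos hρ m

/-- the part of weight `c` -/
noncomputable def pt (ρ : V → NNReal) (c : NNReal) (P : MvPolynomial (V) K) :
    MvPolynomial (V) K := by
  classical
  exact ∑ m ∈ P.support.filter fun m => mw ρ m = c, monomial m (coeff m P)

theorem coeff_pt (ρ : V → NNReal) (c : NNReal) (P : MvPolynomial (V) K)
    (m : V →₀ ℕ) [Decidable (mw ρ m = c)] :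
    coeff m (pt ρ c P) = if mw ρ m = c then coeff m P else 0 := by
  classical
  unfold pt
  rw [coeff_sum]
  simp only [coeff_monomial]
  rw [Finset.sum_ite_eq']
  by_cases h : mw ρ m = c
  · rw [if_pos h]
    by_cases h2 : coeff m P = 0
    · rw [h2]
      simp
    · rw [if_pos (Finset.mem_filter.2 ⟨mem_support_iff.2 h2, h⟩)]
  · rw [if_neg h, if_neg]
    intro h2
    exact h (Finset.mem_filter.1 h2).2

theorem mW_mul {ρ : V → NNReal} (hρ : ∀ i, 0 < ρ i) (P Q : MvPolynomial (V) K) :
    mW ρ (P * Q) = mW ρ P * mW ρ Q := by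
  classical
  by_cases hP : P = 0
  · rw [hP, zero_mul, mW_zero, zero_mul]
  by_cases hQ : Q = 0
  · rw [hQ, mul_zero, mW_zero, mul_zero]
  apply le_antisymm
  · refine mW_le ρ fun m hm => ?_
    rw [coeff_mul] at hm
    obtain ⟨⟨a, b⟩, hab, h⟩ := Finset.exists_ne_zero_of_sum_ne_zero hm
    rw [Finset.HasAntidiagonal.mem_antidiagonal] at hab
    rw [← hab, mw_add]
    exact mul_le_mul' (le_mW ρ (left_ne_zero_of_mul h)) (le_mW ρ (right_ne_zero_of_mul h))
  · set c := mW ρ P with hc
    set d := mW ρ Q with hd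
    have hc0 : 0 < c := mW_pos hρ hP
    have hd0 : 0 < d := mW_pos hρ hQ
    have hpt : ∀ (R : MvPolynomial (V) K), R ≠ 0 → pt ρ (mW ρ R) R ≠ 0 := by
      intro R hR h0
      obtain ⟨m, hm, h⟩ := exists_mW (ρ := ρ) hR
      have h1 := coeff_pt ρ (mW ρ R) R m
      rw [h0, if_pos h, coeff_zero] at h1
      exact hm h1.symm
    have hne : pt ρ c P * pt ρ d Q ≠ 0 := mul_ne_zero (hpt P hP) (hpt Q hQ)
    obtain ⟨m, hm⟩ := MvPolynomial.ne_zero_iff.1 hne
    have hmw : mw ρ m = c * d := by
      rw [coeff_mul] at hm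
      obtain ⟨⟨a, b⟩, hab, h⟩ := Finset.exists_ne_zero_of_sum_ne_zero hm
      rw [Finset.HasAntidiagonal.mem_antidiagonal] at hab
      have ha := left_ne_zero_of_mul h
      have hb := right_ne_zero_of_mul h
      rw [coeff_pt] at ha hb
      have ha' : mw ρ a = c := by
        by_contra h'
        exact ha (if_neg h')
      have hb' : mw ρ b = d := by
        by_contra h'
        exact hb (if_neg h')
      rw [← hab, mw_add, ha', hb']
    have hcoeff : coeff m (P * Q) = coeff m (pt ρ c P * pt ρ d Q) := by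
      rw [coeff_mul, coeff_mul]
      refine Finset.sum_congr rfl fun x hx => ?_
      rw [Finset.HasAntidiagonal.mem_antidiagonal] at hx
      rw [coeff_pt, coeff_pt]
      by_cases ha : coeff x.1 P = 0
      · rw [ha]
        simp
      by_cases hb : coeff x.2 Q = 0
      · rw [hb]
        simp
      have h1 : mw ρ x.1 ≤ c := le_mW ρ ha
      have h2 : mw ρ x.2 ≤ d := le_mW ρ hb
      have h3 : mw ρ x.1 * mw ρ x.2 = c * d := by
        rw [← mw_add, hx, hmw]
      have h4 : mw ρ x.1 = c := by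
        by_contra h
        have h5 : mw ρ x.1 < c := lt_of_le_of_ne h1 h
        have : mw ρ x.1 * mw ρ x.2 < c * d := by
          calc mw ρ x.1 * mw ρ x.2 ≤ mw ρ x.1 * d := mul_le_mul' le_rfl h2
            _ < c * d := mul_lt_mul_of_pos_right h5 hd0
        exact absurd h3 this.ne
      have h6 : mw ρ x.2 = d := by
        rw [h4] at h3
        exact mul_left_cancel₀ hc0.ne' h3
      rw [if_pos h4, if_pos h6]
    rw [← hmw]
    refine le_mW ρ ?_
    rw [hcoeff]
    exact hm

/-- the monomial valuation -/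
noncomputable def mV (ρ : V → NNReal) (hρ : ∀ i, 0 < ρ i) :
    Valuation (MvPolynomial (V) K) NNReal where
  toFun := mW ρ
  map_zero' := mW_zero ρ
  map_one' := by
    rw [← C_1]
    exact mW_C ρ one_ne_zero
  map_mul' := mW_mul hρ
  map_add_le_max' := mW_add ρ

theorem mV_apply (ρ : V → NNReal) (hρ : ∀ i, 0 < ρ i) (P : MvPolynomial (V) K) :
    mV ρ hρ P = mW ρ P := rfl

theorem mW_X (ρ : V → NNReal) (i : V) : mW ρ (X i : MvPolynomial (V) K) = ρ i := by
  classical
  apply le_antisymm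
  · refine mW_le ρ fun m hm => ?_
    rw [coeff_X] at hm
    have : Finsupp.single i 1 = m := by
      by_contra h
      exact hm (if_neg h)
    rw [← this, mw_single]
  · rw [← mw_single ρ i]
    refine le_mW ρ ?_
    rw [coeff_X, if_pos rfl]
    exact one_ne_zero

/-- the logarithmic derivative -/
theorem mW_deriv (ρ : V → NNReal) (i : V) (P : MvPolynomial (V) K) :
    mW ρ (X i * pderiv i P) ≤ mW ρ P := by
  classical
  conv_lhs => rw [← support_sum_monomial_coeff P, map_sum, Finset.mul_sum]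
  refine mW_sum ρ _ _ fun m hm => ?_
  rw [X_mul_pderiv_monomial]
  refine mW_le ρ fun m' hm' => ?_
  have h1 : m = m' := by
    by_contra h
    apply hm'
    rw [coeff_smul, coeff_monomial, if_neg h, smul_zero]
  rw [← h1]
  exact le_mW ρ (mem_support_iff.1 hm)

theorem mV_det {ρ : V → NNReal} (hρ : ∀ i, 0 < ρ i) (P : V → MvPolynomial (V) K) :
    mW ρ (Matrix.of fun i j => X i * pderiv i (P j)).det ≤ ∏ j, mW ρ (P j) := by
  classical
  rw [Matrix.det_apply]
  refine mW_sum ρ _ _ fun σ _ => ?_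
  have h1 : mW ρ (Equiv.Perm.sign σ • ∏ i, (Matrix.of fun i j => X i * pderiv i (P j)) (σ i) i) =
      mW ρ (∏ i, (Matrix.of fun i j => X i * pderiv i (P j)) (σ i) i) := by
    rcases Int.units_eq_one_or (Equiv.Perm.sign σ) with h | h
    · rw [h, one_smul]
    · rw [h, Units.neg_smul, one_smul]
      exact Valuation.map_neg (mV ρ hρ) _
  rw [h1, ← mV_apply ρ hρ, map_prod]
  exact Finset.prod_le_prod' fun i _ => mW_deriv ρ (σ i) (P i)

end Pool.Agent.V5helper83.PS
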