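import Mathlib
import Pool.Agent.V5helper83.PS.Disc
import Pool.Agent.W180.OP.Base

/-!
Multiplier ideals of arrangements in products of projective spaces: the local estimate.
-/

set_option autoImplicit false
set_option linter.unusedSectionVars false

open Finset

namespace Pool.Agent.V5helper83.PS

open MvPolynomial
open Pool.Agent.W180.OP (nrm le_nrm nrm_pos nrm_nonneg exists_nrm)

/-- the homogeneous coordinates of the product -/
abbrev Cd {τ : Type} (n : τ → ℕ) : Type := Σ t, Fin (n t)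

variable {τ : Type} [Fintype τ] [DecidableEq τ] {n : τ → ℕ}

/-- multihomogeneous polynomials -/
def MHom {k : Type} [Field k] (d : τ → ℕ) (P : MvPolynomial (Cd n) k) : Prop :=
  ∀ m, coeff m P ≠ 0 → ∀ t, ∑ i, m ⟨t, i⟩ = d t

/-- valuations of the function field -/
def IsPl {k : Type} [Field k] (w : Valuation (MvPolynomial (Cd n) k) NNReal) : Prop :=
  (∀ c : k, c ≠ 0 → w (C c) = 1) ∧ (∀ v, w (X v) ≤ 1) ∧ (∀ t, ∃ i, w (X ⟨t, i⟩) = 1) ∧
    ∀ P : MvPolynomial (Cd n) k, P ≠ 0 → w P ≠ 0

/-- the multiplier ideal -/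
def InMult {k : Type} [Field k] {a : ℕ} (f : Fin a → MvPolynomial (Cd n) k)
    (u : MvPolynomial (Cd n) k) : Prop :=
  ∀ w : Valuation (MvPolynomial (Cd n) k) NNReal, IsPl w →
    ∃ r : NNReal, (∀ r' : NNReal, r < r' → LogB w r') ∧ w u * r ≤ ⨆ j, w (f j)

variable {k K : Type} [Field k] [Field K] [Algebra k K]

/-- a linear form of one factor -/
noncomputable def lfb (t : τ) (b : Fin (n t) → K) : MvPolynomial (Cd n) K :=
  ∑ i, C (b i) * X ⟨t, i⟩

theorem eval_lfb (t : τ) (b : Fin (n t) → K) (x : ∀ t, Fin (n t) → K) :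
    eval (fun v : Cd n => x v.1 v.2) (lfb t b) = ∑ i, b i * x t i := by
  simp [lfb]

theorem coeff_lfb (t : τ) (b : Fin (n t) → K) (i : Fin (n t)) :
    coeff (Finsupp.single ⟨t, i⟩ 1) (lfb t b) = b i := by
  classical
  unfold lfb
  rw [coeff_sum, Finset.sum_eq_single i]
  · rw [coeff_C_mul, coeff_X, if_pos rfl, mul_one]
  · intro j _ hj
    rw [coeff_C_mul, coeff_X, if_neg, mul_zero]
    intro h
    have h1 := Finsupp.single_left_injective one_ne_zero h
    simp only [Sigma.mk.injEq, heq_eq_eq, true_and] at h1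
    exact hj h1
  · intro h
    exact absurd (Finset.mem_univ _) h

theorem mW_lfb_le (ρ : Cd n → NNReal) (t : τ) (b : Fin (n t) → K) {r : NNReal}
    (h : ∀ i, b i ≠ 0 → ρ ⟨t, i⟩ ≤ r) : mW ρ (lfb t b) ≤ r := by
  unfold lfb
  refine mW_sum ρ _ _ fun i _ => ?_
  refine mW_le ρ fun m hm => ?_
  classical
  rw [coeff_C_mul, coeff_X] at hm
  have h1 := left_ne_zero_of_mul hm
  have h2 : Finsupp.single (⟨t, i⟩ : Cd n) 1 = m := by
    by_contra h'
    rw [if_neg h', mul_zero] at hm
    exact hm rfl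
  rw [← h2, mw_single]
  exact h i h1

theorem le_mW_lfb (ρ : Cd n → NNReal) (t : τ) (b : Fin (n t) → K) {i : Fin (n t)} (hi : b i ≠ 0) :
    ρ ⟨t, i⟩ ≤ mW ρ (lfb t b) := by
  rw [← mw_single ρ ⟨t, i⟩]
  refine le_mW ρ ?_
  rwa [coeff_lfb]

theorem lff_block (B' : ∀ t, Matrix (Fin (n t)) (Fin (n t)) K) (t : τ) (i : Fin (n t)) :
    lff (Matrix.blockDiagonal' B' ⟨t, i⟩) = lfb t (B' t i) := by
  unfold lff lfb
  rw [Fintype.sum_sigma, Finset.sum_eq_single t]
  · refine Finset.sum_congr rfl fun j _ => ?_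
    rw [Matrix.blockDiagonal'_apply_eq]
  · intro t' _ ht'
    refine Finset.sum_eq_zero fun j _ => ?_
    rw [Matrix.blockDiagonal'_apply_ne B' _ _ (Ne.symm ht'), C_0, zero_mul]
  · intro h
    exact absurd (Finset.mem_univ _) h

theorem mulVec_block (B : ∀ t, Matrix (Fin (n t)) (Fin (n t)) K) (x : ∀ t, Fin (n t) → K) :
    (Matrix.blockDiagonal' B).mulVec (fun v : Cd n => x v.1 v.2) =
      fun v : Cd n => (B v.1).mulVec (x v.1) v.2 := by
  funext ⟨t, i⟩
  rw [Matrix.mulVec, dotProduct, Fintype.sum_sigma, Finset.sum_eq_single t]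
  · refine Finset.sum_congr rfl fun j _ => ?_
    rw [Matrix.blockDiagonal'_apply_eq]
  · intro t' _ ht'
    refine Finset.sum_eq_zero fun j _ => ?_
    rw [Matrix.blockDiagonal'_apply_ne B _ _ (Ne.symm ht'), zero_mul]
  · intro h
    exact absurd (Finset.mem_univ _) h

theorem sub_map {V : Type} [Fintype V] [DecidableEq V] (B' : Matrix V V K) (P : MvPolynomial V k) :
    sub k B' P = sub K B' (map (algebraMap k K) P) := by
  have h1 : sub k B' = (sub K B').comp (MvPolynomial.map (algebraMap k K)) := by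
    apply MvPolynomial.ringHom_ext
    · intro c
      simp only [RingHom.comp_apply]
      rw [sub_C, map_C, sub_C]
      rfl
    · intro j
      simp only [RingHom.comp_apply]
      rw [sub_X, map_X, sub_X]
  exact RingHom.congr_fun h1 P

theorem sub_lfb (B' : ∀ t, Matrix (Fin (n t)) (Fin (n t)) K) (t : τ) (g : Fin (n t) → K) :
    sub K (Matrix.blockDiagonal' B') (lfb t g) = lfb t (Matrix.vecMul g (B' t)) := by
  classical
  conv_lhs => rw [lfb]
  rw [map_sum]
  have h1 : ∀ j, sub K (Matrix.blockDiagonal' B') (C (g j) * X (⟨t, j⟩ : Cd n)) =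
      ∑ i, C (g j * B' t j i) * X (⟨t, i⟩ : Cd n) := by
    intro j
    rw [map_mul, sub_C, sub_X, lff_block, lfb, Finset.mul_sum]
    refine Finset.sum_congr rfl fun i _ => ?_
    rw [C_mul, mul_assoc]
    rfl
  simp only [h1]
  rw [Finset.sum_comm, lfb]
  refine Finset.sum_congr rfl fun i _ => ?_
  rw [Matrix.vecMul, dotProduct, map_sum, Finset.sum_mul]

/-- the sum of the absolute values of the coefficients -/
noncomputable def csV {V : Type} (f : AbsoluteValue K ℝ) (F : MvPolynomial V K) : ℝ :=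
  ∑ m ∈ F.support, f (F.coeff m)

theorem csV_nonneg {V : Type} (f : AbsoluteValue K ℝ) (F : MvPolynomial V K) : 0 ≤ csV f F :=
  Finset.sum_nonneg fun _ _ => f.nonneg _

theorem nrm_le' {f : AbsoluteValue K ℝ} {N : ℕ} {x : Fin N → K} {r : ℝ} (hr : 0 ≤ r)
    (h : ∀ i, f (x i) ≤ r) : nrm f x ≤ r := by
  unfold nrm
  exact Real.iSup_le h hr

/-- substitution of linear forms respects the multidegree -/
theorem sub_MHom (B' : ∀ t, Matrix (Fin (n t)) (Fin (n t)) K) {P : MvPolynomial (Cd n) k}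
    {e : τ → ℕ} (hP : MHom e P) : MHom e (sub k (Matrix.blockDiagonal' B') P) := by
  classical
  -- products and sums
  have hadd : ∀ (d : τ → ℕ) (Q R : MvPolynomial (Cd n) K), MHom d Q → MHom d R → MHom d (Q + R) := by
    intro d Q R hQ hR m hm
    rw [coeff_add] at hm
    by_cases h : coeff m Q = 0
    · rw [h, zero_add] at hm
      exact hR m hm
    · exact hQ m h
  have hsum : ∀ {α : Type} (s : Finset α) (d : τ → ℕ) (Q : α → MvPolynomial (Cd n) K),
      (∀ a ∈ s, MHom d (Q a)) → MHom d (∑ a ∈ s, Q a) := by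
    intro α s d Q
    induction s using Finset.induction_on with
    | empty =>
      intro _ m hm
      rw [Finset.sum_empty, coeff_zero] at hm
      exact absurd rfl hm
    | insert a s ha ih =>
      intro h
      rw [Finset.sum_insert ha]
      exact hadd _ _ _ (h a (Finset.mem_insert_self _ _))
        (ih fun b hb => h b (Finset.mem_insert_of_mem hb))
  have hmul : ∀ (d d' : τ → ℕ) (Q R : MvPolynomial (Cd n) K), MHom d Q → MHom d' R →
      MHom (d + d') (Q * R) := by
    intro d d' Q R hQ hR m hm t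
    rw [coeff_mul] at hm
    obtain ⟨⟨a, b⟩, hab, h⟩ := Finset.exists_ne_zero_of_sum_ne_zero hm
    rw [Finset.HasAntidiagonal.mem_antidiagonal] at hab
    have h1 := hQ a (left_ne_zero_of_mul h) t
    have h2 := hR b (right_ne_zero_of_mul h) t
    rw [← hab, Pi.add_apply, ← h1, ← h2, ← Finset.sum_add_distrib]
    rfl
  have hC : ∀ c : K, MHom (0 : τ → ℕ) (C c : MvPolynomial (Cd n) K) := by
    intro c m hm t
    rw [coeff_C] at hm
    have h1 : (0 : Cd n →₀ ℕ) = m := by
      by_contra h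
      exact hm (if_neg h)
    rw [← h1]
    simp
  have hlfb : ∀ (t : τ) (b : Fin (n t) → K), MHom (Pi.single t 1) (lfb t b) := by
    intro t b
    refine hsum _ _ _ fun i _ m hm t' => ?_
    rw [coeff_C_mul, coeff_X] at hm
    have h2 : Finsupp.single (⟨t, i⟩ : Cd n) 1 = m := by
      by_contra h'
      rw [if_neg h', mul_zero] at hm
      exact hm rfl
    rw [← h2]
    by_cases ht : t' = t
    · subst ht
      rw [Pi.single_eq_same, Finset.sum_eq_single i]
      · rw [Finsupp.single_eq_same]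
      · intro j _ hj
        rw [Finsupp.single_eq_of_ne]
        intro h
        simp only [Sigma.mk.injEq, heq_eq_eq, true_and] at h
        exact hj h
      · intro h
        exact absurd (Finset.mem_univ _) h
    · rw [Pi.single_eq_of_ne ht]
      refine Finset.sum_eq_zero fun j _ => ?_
      rw [Finsupp.single_eq_of_ne]
      intro h
      exact ht (congrArg Sigma.fst h)
  have hprod : ∀ {α : Type} (s : Finset α) (d : α → τ → ℕ) (Q : α → MvPolynomial (Cd n) K),
      (∀ a ∈ s, MHom (d a) (Q a)) → MHom (∑ a ∈ s, d a) (∏ a ∈ s, Q a) := by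
    intro α s d Q
    induction s using Finset.induction_on with
    | empty =>
      intro _
      rw [Finset.sum_empty, Finset.prod_empty, ← C_1]
      exact hC 1
    | insert a s ha ih =>
      intro h
      rw [Finset.sum_insert ha, Finset.prod_insert ha]
      exact hmul _ _ _ _ (h a (Finset.mem_insert_self _ _))
        (ih fun b hb => h b (Finset.mem_insert_of_mem hb))
  have hpow : ∀ (r : ℕ) (d : τ → ℕ) (Q : MvPolynomial (Cd n) K), MHom d Q → MHom (r • d) (Q ^ r) := by
    intro r d Q hQ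
    have h1 := hprod (Finset.range r) (fun _ => d) (fun _ => Q) fun _ _ => hQ
    rwa [Finset.sum_const, Finset.prod_const, Finset.card_range] at h1
  have hP' : sub k (Matrix.blockDiagonal' B') P = ∑ m ∈ P.support,
      C (algebraMap k K (coeff m P)) * ∏ v : Cd n, (lfb v.1 (B' v.1 v.2)) ^ m v := by
    conv_lhs => rw [P.as_sum, map_sum]
    refine Finset.sum_congr rfl fun m _ => ?_
    rw [monomial_eq, map_mul, sub_C, Finsupp.prod_fintype _ _ (fun _ => pow_zero _), map_prod]
    congr 1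
    refine Finset.prod_congr rfl fun v _ => ?_
    rw [map_pow, sub_X]
    obtain ⟨t, i⟩ := v
    rw [lff_block]
  rw [hP']
  refine hsum _ _ _ fun m hm => ?_
  have h1 := hmul _ _ _ _ (hC (algebraMap k K (coeff m P)))
    (hprod Finset.univ (fun v : Cd n => m v • (Pi.single v.1 1 : τ → ℕ))
      (fun v => (lfb v.1 (B' v.1 v.2)) ^ m v) fun v _ => hpow _ _ _ (hlfb v.1 _))
  have h2 : (0 : τ → ℕ) + ∑ v : Cd n, m v • (Pi.single v.1 1 : τ → ℕ) = e := by
    rw [zero_add]
    funext t
    rw [← hP m (mem_support_iff.1 hm) t, Finset.sum_apply, Fintype.sum_sigma,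
      Finset.sum_eq_single t]
    · refine Finset.sum_congr rfl fun i _ => ?_
      simp
    · intro t' _ ht'
      refine Finset.sum_eq_zero fun i _ => ?_
      simp [Pi.single_eq_of_ne (Ne.symm ht')]
    · intro h
      exact absurd (Finset.mem_univ _) h
  rwa [h2] at h1

/-- the absolute value of a form is bounded by the monomial valuation -/
theorem abv_mW (f : AbsoluteValue K ℝ) {P : MvPolynomial (Cd n) K} {e : τ → ℕ}
    (hP : MHom e P) (y : ∀ t, Fin (n t) → K) (hy : ∀ t, y t ≠ 0) (ρ : Cd n → NNReal)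
    (hρ : ∀ v, (ρ v : ℝ) = f (y v.1 v.2) / nrm f (y v.1)) :
    f (eval (fun v : Cd n => y v.1 v.2) P) ≤ csV f P * ((∏ t, nrm f (y t) ^ e t) * mW ρ P) := by
  classical
  rw [MvPolynomial.eval_eq, csV, Finset.sum_mul]
  refine (f.sum_le _ _).trans (Finset.sum_le_sum fun m hm => ?_)
  rw [map_mul]
  refine mul_le_mul_of_nonneg_left ?_ (f.nonneg _)
  have hN : ∀ t, 0 < nrm f (y t) := fun t => nrm_pos f (hy t)
  have h2 := hP m (MvPolynomial.mem_support_iff.1 hm)
  have h3 : f (∏ v ∈ m.support, y v.1 v.2 ^ m v) = (∏ t, nrm f (y t) ^ e t) * (mw ρ m : ℝ) := by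
    have h4 : ∏ v ∈ m.support, y v.1 v.2 ^ m v = ∏ v : Cd n, y v.1 v.2 ^ m v := by
      refine Finset.prod_subset (Finset.subset_univ _) fun i _ hi => ?_
      rw [Finsupp.notMem_support_iff.1 hi, pow_zero]
    rw [h4, map_prod]
    have h5 : ∏ t, nrm f (y t) ^ e t = ∏ v : Cd n, nrm f (y v.1) ^ m v := by
      rw [Fintype.prod_sigma]
      refine Finset.prod_congr rfl fun t _ => ?_
      rw [← h2 t, ← Finset.prod_pow_eq_pow_sum]
    rw [h5]
    unfold mw
    push_cast
    rw [← Finset.prod_mul_distrib]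
    refine Finset.prod_congr rfl fun v _ => ?_
    rw [map_pow, hρ, ← mul_pow, mul_div_cancel₀ _ (hN v.1).ne']
  rw [h3]
  refine mul_le_mul_of_nonneg_left ?_ (Finset.prod_nonneg fun t _ => pow_nonneg (hN t).le _)
  exact_mod_cast le_mW ρ (MvPolynomial.mem_support_iff.1 hm)

end Pool.Agent.V5helper83.PS
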