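import Mathlib
import Pool.Agent.V5helper83.PS.MI

/-!
The toric inequality for arrangement ideals in products of projective spaces.
-/

set_option autoImplicit false
set_option linter.unusedSectionVars false

open Finset

namespace Pool.Agent.V5helper83.PS

open MvPolynomial
open Pool.Agent.W180.OP (nrm le_nrm nrm_pos nrm_nonneg exists_nrm)

variable {τ : Type} [Fintype τ] [DecidableEq τ] {n : τ → ℕ}
variable {k K : Type} [Field k] [Field K] [Algebra k K]

/-- the local estimate -/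
theorem toricP (f : AbsoluteValue K ℝ) (B B' : ∀ t, Matrix (Fin (n t)) (Fin (n t)) K)
    (hB : ∀ t, B t * B' t = 1) (hB2 : ∀ t, B' t * B t = 1) {ι : Type} (bl : ι → τ)
    (Lf : ∀ l, Fin (n (bl l)) → K) {a : ℕ}
    (Fs : Fin a → MvPolynomial (Cd n) k) (c : Fin a → K) (d : Fin a → ℕ)
    (σ : ∀ j, Fin (d j) → ι)
    (hfac : ∀ j, map (algebraMap k K) (Fs j) = C (c j) * ∏ s, lfb (bl (σ j s)) (Lf (σ j s)))
    (u : MvPolynomial (Cd n) k) (e : τ → ℕ) (hu : MHom e u) (hm : InMult Fs u)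
    (κ κ' M cu : ℝ) (hκ1 : 1 ≤ κ) (hκ : ∀ t x, nrm f ((B t).mulVec x) ≤ κ * nrm f x)
    (hκ'1 : 1 ≤ κ') (hκ' : ∀ t x, nrm f ((B' t).mulVec x) ≤ κ' * nrm f x)
    (hM1 : 1 ≤ M) (hM : ∀ j, (f (c j))⁻¹ * κ' ^ d j ≤ M)
    (hcu1 : 1 ≤ cu) (hcu : csV f (sub k (Matrix.blockDiagonal' B') u) ≤ cu)
    (x : ∀ t, Fin (n t) → K) (hx : ∀ t, x t ≠ 0) (hy0 : ∀ t i, (B t).mulVec (x t) i ≠ 0)
    (hgr : ∀ l i, Matrix.vecMul (Lf l) (B' (bl l)) i ≠ 0 →
      f ((B (bl l)).mulVec (x (bl l)) i) ≤ f (∑ j, Lf l j * x (bl l) j))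
    (hux : aeval (fun v : Cd n => x v.1 v.2) u ≠ 0)
    (hs : 0 < ⨆ j, f (aeval (fun v : Cd n => x v.1 v.2) (Fs j)) / ∏ s, nrm f (x (bl (σ j s)))) :
    -Real.log (⨆ j, f (aeval (fun v : Cd n => x v.1 v.2) (Fs j)) /
        ∏ s, nrm f (x (bl (σ j s)))) ≤
      -Real.log (f (aeval (fun v : Cd n => x v.1 v.2) u) / ∏ t, nrm f (x t) ^ e t) +
      ∑ t, ∑ i, (Real.log (nrm f (x t)) - Real.log (f ((B t).mulVec (x t) i))) +
      (Real.log cu + Real.log M + (∑ t, ((e t : ℝ) + n t)) * Real.log κ) := by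
  classical
  set X : Cd n → K := fun v => x v.1 v.2 with hX
  have hMj0 : ∀ j, 0 ≤ (f (c j))⁻¹ * κ' ^ d j := fun j =>
    mul_nonneg (inv_nonneg.2 (f.nonneg _)) (pow_nonneg (by linarith) _)
  set y : ∀ t, Fin (n t) → K := fun t => (B t).mulVec (x t) with hy
  set Y : Cd n → K := fun v => y v.1 v.2 with hY
  have hyx : ∀ t, (B' t).mulVec (y t) = x t := by
    intro t
    rw [hy, Matrix.mulVec_mulVec, hB2, Matrix.one_mulVec]
  have hn : ∀ t, 0 < n t := by
    intro t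
    obtain ⟨i0', _⟩ := Function.ne_iff.1 (hx t)
    exact Fin.pos i0'
  have hyne : ∀ t, y t ≠ 0 := by
    intro t h
    exact hy0 t ⟨0, hn t⟩ (congrFun h ⟨0, hn t⟩)
  have hNy : ∀ t, 0 < nrm f (y t) := fun t => nrm_pos f (hyne t)
  have hNx : ∀ t, 0 < nrm f (x t) := fun t => nrm_pos f (hx t)
  set ρ : Cd n → NNReal := fun v =>
    ⟨f (y v.1 v.2) / nrm f (y v.1), div_nonneg (f.nonneg _) (hNy _).le⟩ with hρdef
  have hρv : ∀ v, (ρ v : ℝ) = f (y v.1 v.2) / nrm f (y v.1) := fun i => rfl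
  have hρ : ∀ v, 0 < ρ v := by
    intro v
    rw [← NNReal.coe_pos, hρv]
    exact div_pos (f.pos_iff.2 (hy0 v.1 v.2)) (hNy _)
  have hρ1 : ∀ v, ρ v ≤ 1 := by
    intro v
    rw [← NNReal.coe_le_coe, hρv, NNReal.coe_one, div_le_one (hNy _)]
    exact le_nrm f (y v.1) v.2
  have hex : ∀ t, ∃ i0, ρ ⟨t, i0⟩ = 1 := by
    intro t
    obtain ⟨i0, hi0⟩ := exists_nrm f (hn t) (y t)
    refine ⟨i0, ?_⟩
    rw [← NNReal.coe_inj, hρv, NNReal.coe_one]
    show f (y t i0) / nrm f (y t) = 1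
    rw [hi0, div_self (hNy t).ne']
  set Bf : Matrix (Cd n) (Cd n) K := Matrix.blockDiagonal' B with hBf
  set Bf' : Matrix (Cd n) (Cd n) K := Matrix.blockDiagonal' B' with hBf'
  have hBB : Bf * Bf' = 1 := by
    rw [hBf, hBf', ← Matrix.blockDiagonal'_mul]
    simp only [hB]
    exact Matrix.blockDiagonal'_one
  have hBB2 : Bf' * Bf = 1 := by
    rw [hBf, hBf', ← Matrix.blockDiagonal'_mul]
    simp only [hB2]
    exact Matrix.blockDiagonal'_one
  set w := (mV (K := K) ρ hρ).comap (sub k Bf') with hw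
  have hwv : ∀ P, w P = mW ρ (sub k Bf' P) := fun P => rfl
  have hplace : IsPl w := by
    refine ⟨fun t ht => ?_, fun v => ?_, ?_, fun P hP => ?_⟩
    · rw [hwv, sub_C]
      exact mW_C ρ (by rwa [Ne, map_eq_zero])
    · obtain ⟨t, i⟩ := v
      rw [hwv, sub_X, hBf', lff_block]
      exact mW_lfb_le ρ _ _ fun i' _ => hρ1 _
    · intro t
      obtain ⟨i0, hρi0⟩ := hex t
      obtain ⟨j, hj⟩ : ∃ j, B' t j i0 ≠ 0 := by
        by_contra hcon
        push Not at hcon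
        have h1 : (B t * B' t) i0 i0 = 0 := by
          rw [Matrix.mul_apply]
          exact Finset.sum_eq_zero fun j _ => by rw [hcon j, mul_zero]
        rw [hB, Matrix.one_apply_eq] at h1
        exact one_ne_zero h1
      refine ⟨j, ?_⟩
      rw [hwv, sub_X, hBf', lff_block]
      apply le_antisymm
      · exact mW_lfb_le ρ _ _ fun i' _ => hρ1 _
      · rw [← hρi0]
        exact le_mW_lfb ρ _ _ hj
    · rw [hwv]
      exact (mW_pos hρ (fun h => hP (sub_injective Bf Bf' hBB2 (by rw [h, map_zero])))).ne'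
  obtain ⟨r, hr, hle⟩ := hm w hplace
  have hρr : ∏ v, ρ v ≤ r := le_of_forall_gt_imp_ge_of_dense fun r' hr' =>
    tor_disc hρ Bf Bf' hBB hBB2 r' (hr r' hr')
  set S : ℝ := ⨆ j, f (aeval X (Fs j)) / ∏ s, nrm f (x (bl (σ j s))) with hS
  have hD0 : ∀ j, 0 < ∏ s, nrm f (x (bl (σ j s))) := fun j => Finset.prod_pos fun s _ => hNx _
  -- the values of the generators
  have hval : ∀ j, (w (Fs j) : ℝ) ≤ (f (c j))⁻¹ * κ' ^ d j *
      (f (aeval X (Fs j)) / ∏ s, nrm f (x (bl (σ j s)))) := by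
    intro j
    have h1 : sub k Bf' (Fs j) = C (c j) *
        ∏ s, lfb (bl (σ j s)) (Matrix.vecMul (Lf (σ j s)) (B' (bl (σ j s)))) := by
      rw [sub_map, hfac, map_mul, sub_C, map_prod]
      congr 1
      exact Finset.prod_congr rfl fun s _ => sub_lfb B' _ _
    have h2 : aeval X (Fs j) = c j * ∏ s, ∑ i, Lf (σ j s) i * x (bl (σ j s)) i := by
      have h3 : aeval X (Fs j) = eval X (map (algebraMap k K) (Fs j)) := by
        rw [eval_map, aeval_def]
      rw [h3, hfac, map_mul, eval_C, map_prod]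
      congr 1
      exact Finset.prod_congr rfl fun s _ => eval_lfb _ _ x
    by_cases hcj : c j = 0
    · have h3 : w (Fs j) = 0 := by
        rw [hwv, h1, hcj, C_0, zero_mul, mW_zero]
      rw [h3, NNReal.coe_zero]
      have := hMj0 j
      have := div_nonneg (f.nonneg (aeval X (Fs j))) (hD0 j).le
      positivity
    · have h3 : w (Fs j) =
          ∏ s, mW ρ (lfb (bl (σ j s)) (Matrix.vecMul (Lf (σ j s)) (B' (bl (σ j s))))) := by
        rw [hwv, h1, mW_mul hρ, mW_C ρ hcj, one_mul, ← mV_apply ρ hρ, map_prod]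
        rfl
      have h4 : (w (Fs j) : ℝ) ≤
          ∏ s, (f (∑ i, Lf (σ j s) i * x (bl (σ j s)) i) / nrm f (y (bl (σ j s)))) := by
        rw [h3]
        push_cast
        refine Finset.prod_le_prod (fun s _ => NNReal.coe_nonneg _) fun s _ => ?_
        obtain ⟨t, ht⟩ : ∃ t : NNReal, (t : ℝ) =
            f (∑ i, Lf (σ j s) i * x (bl (σ j s)) i) / nrm f (y (bl (σ j s))) :=
          ⟨⟨_, div_nonneg (f.nonneg _) (hNy _).le⟩, rfl⟩
        rw [← ht, NNReal.coe_le_coe]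
        refine mW_lfb_le ρ _ _ fun i hi => ?_
        rw [← NNReal.coe_le_coe, hρv, ht]
        exact div_le_div_of_nonneg_right (hgr _ i hi) (hNy _).le
      have hcj' := f.pos_iff.2 hcj
      rw [h2, map_mul, map_prod]
      rw [Finset.prod_div_distrib] at h4
      have h6 : ∏ s, nrm f (x (bl (σ j s))) ≤ κ' ^ d j * ∏ s, nrm f (y (bl (σ j s))) := by
        have h7 : κ' ^ d j * ∏ s, nrm f (y (bl (σ j s))) =
            ∏ s, (κ' * nrm f (y (bl (σ j s)))) := by
          rw [Finset.prod_mul_distrib, Finset.prod_const, Finset.card_univ, Fintype.card_fin]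
        rw [h7]
        refine Finset.prod_le_prod (fun s _ => (hNx _).le) fun s _ => ?_
        rw [← hyx]
        exact hκ' _ _
      have hDy0 : 0 < ∏ s, nrm f (y (bl (σ j s))) := Finset.prod_pos fun s _ => hNy _
      have hP0 : 0 ≤ ∏ s, f (∑ i, Lf (σ j s) i * x (bl (σ j s)) i) :=
        Finset.prod_nonneg fun _ _ => f.nonneg _
      refine h4.trans ?_
      rw [show (f (c j))⁻¹ * κ' ^ d j * (f (c j) *
        (∏ s, f (∑ i, Lf (σ j s) i * x (bl (σ j s)) i)) / ∏ s, nrm f (x (bl (σ j s)))) =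
        (∏ s, f (∑ i, Lf (σ j s) i * x (bl (σ j s)) i)) *
          (κ' ^ d j / ∏ s, nrm f (x (bl (σ j s)))) by
          field_simp]
      rw [div_eq_mul_inv]
      refine mul_le_mul_of_nonneg_left ?_ hP0
      rw [inv_eq_one_div, div_le_div_iff₀ hDy0 (hD0 j), one_mul]
      exact h6
  have hbdd : BddAbove (Set.range fun j => f (aeval X (Fs j)) / ∏ s, nrm f (x (bl (σ j s)))) :=
    (Set.finite_range _).bddAbove
  have hsup : ((⨆ j, w (Fs j) : NNReal) : ℝ) ≤ M * S := by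
    rw [NNReal.coe_iSup]
    rcases Nat.eq_zero_or_pos a with rfl | ha
    · rw [hS, Real.iSup_of_isEmpty] at hs
      exact absurd hs (lt_irrefl _)
    · have : Nonempty (Fin a) := ⟨⟨0, ha⟩⟩
      refine ciSup_le fun j => ?_
      have h1 : f (aeval X (Fs j)) / ∏ s, nrm f (x (bl (σ j s))) ≤ S := le_ciSup hbdd j
      exact (hval j).trans (mul_le_mul (hM j) h1
        (div_nonneg (f.nonneg _) (hD0 j).le) (by linarith))
  have hkey : (w u : ℝ) * ∏ v : Cd n, (f (y v.1 v.2) / nrm f (y v.1)) ≤ M * S := by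
    have h1 : w u * ∏ v, ρ v ≤ ⨆ j, w (Fs j) := (mul_le_mul' le_rfl hρr).trans hle
    have h2 : ((w u * ∏ v, ρ v : NNReal) : ℝ) ≤ ((⨆ j, w (Fs j) : NNReal) : ℝ) :=
      NNReal.coe_le_coe.2 h1
    have h3 : ((w u * ∏ v, ρ v : NNReal) : ℝ) =
        (w u : ℝ) * ∏ v : Cd n, (f (y v.1 v.2) / nrm f (y v.1)) := by
      rw [NNReal.coe_mul, NNReal.coe_prod]
      rfl
    rw [h3] at h2
    exact h2.trans hsup
  -- the form `u`
  have hXY : Bf.mulVec X = Y := mulVec_block B x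
  have hue : aeval X u = eval Y (sub k Bf' u) := by
    rw [← hXY]
    exact (eval_sub Bf Bf' hBB2 u X).symm
  have hPy : 0 < ∏ t, nrm f (y t) ^ e t := Finset.prod_pos fun t _ => pow_pos (hNy t) _
  have hwu0 : 0 ≤ (w u : ℝ) := NNReal.coe_nonneg _
  have habs : f (aeval X u) ≤ cu * ((∏ t, nrm f (y t) ^ e t) * (w u : ℝ)) := by
    rw [hue]
    exact (abv_mW f (sub_MHom B' hu) y hyne ρ hρv).trans
      (mul_le_mul_of_nonneg_right hcu (mul_nonneg hPy.le hwu0))
  have hfu := f.pos_iff.2 hux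
  have hcu0 : 0 < cu := by linarith
  have hprodpos : 0 < ∏ v : Cd n, (f (y v.1 v.2) / nrm f (y v.1)) :=
    Finset.prod_pos fun v _ => div_pos (f.pos_iff.2 (hy0 v.1 v.2)) (hNy _)
  have hfin : f (aeval X u) * ∏ v : Cd n, (f (y v.1 v.2) / nrm f (y v.1)) ≤
      cu * (∏ t, nrm f (y t) ^ e t) * (M * S) := by
    calc f (aeval X u) * ∏ v : Cd n, (f (y v.1 v.2) / nrm f (y v.1)) ≤
        (cu * ((∏ t, nrm f (y t) ^ e t) * (w u : ℝ))) *
          ∏ v : Cd n, (f (y v.1 v.2) / nrm f (y v.1)) :=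
          mul_le_mul_of_nonneg_right habs hprodpos.le
      _ = cu * (∏ t, nrm f (y t) ^ e t) *
          ((w u : ℝ) * ∏ v : Cd n, (f (y v.1 v.2) / nrm f (y v.1))) := by ring
      _ ≤ _ := mul_le_mul_of_nonneg_left hkey (mul_nonneg hcu0.le hPy.le)
  have hlog := Real.log_le_log (mul_pos hfu hprodpos) hfin
  have hM0 : 0 < M := by linarith
  have hPx : 0 < ∏ t, nrm f (x t) ^ e t := Finset.prod_pos fun t _ => pow_pos (hNx t) _
  have hlogP : ∀ z : ∀ t, Fin (n t) → K, (∀ t, 0 < nrm f (z t)) →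
      Real.log (∏ t, nrm f (z t) ^ e t) = ∑ t, (e t : ℝ) * Real.log (nrm f (z t)) := by
    intro z hz
    rw [Real.log_prod fun t _ => (pow_pos (hz t) _).ne']
    exact Finset.sum_congr rfl fun t _ => Real.log_pow _ _
  rw [Real.log_mul hfu.ne' hprodpos.ne', Real.log_mul (mul_pos hcu0 hPy).ne'
    (mul_pos hM0 hs).ne', Real.log_mul hcu0.ne' hPy.ne', hlogP y hNy,
    Real.log_mul hM0.ne' hs.ne', Real.log_prod (fun v _ =>
      (div_pos (f.pos_iff.2 (hy0 v.1 v.2)) (hNy v.1)).ne'), Fintype.sum_sigma] at hlog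
  have h1 : ∀ t i, Real.log (f (y t i) / nrm f (y t)) =
      Real.log (f (y t i)) - Real.log (nrm f (y t)) := fun t i =>
    Real.log_div (f.pos_iff.2 (hy0 t i)).ne' (hNy t).ne'
  simp only [h1] at hlog
  rw [Real.log_div hfu.ne' hPx.ne', hlogP x hNx]
  -- comparison of the norms
  have hcmp : ∑ t, (((e t : ℝ) + n t) * (Real.log (nrm f (y t)) - Real.log (nrm f (x t)))) ≤
      (∑ t, ((e t : ℝ) + n t)) * Real.log κ := by
    rw [Finset.sum_mul]
    refine Finset.sum_le_sum fun t _ => mul_le_mul_of_nonneg_left ?_ (by positivity)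
    have h2 : Real.log (nrm f (y t)) ≤ Real.log κ + Real.log (nrm f (x t)) := by
      rw [← Real.log_mul (by linarith) (hNx t).ne']
      exact Real.log_le_log (hNy t) (hκ t (x t))
    linarith
  have hsx : ∀ z : ∀ t, Fin (n t) → K, ∑ t, ∑ i, (Real.log (f (y t i)) - Real.log (nrm f (z t))) =
      ∑ t, ∑ i, Real.log (f (y t i)) - ∑ t, (n t : ℝ) * Real.log (nrm f (z t)) := by
    intro z
    rw [← Finset.sum_sub_distrib]
    refine Finset.sum_congr rfl fun t _ => ?_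
    rw [Finset.sum_sub_distrib, Finset.sum_const, Finset.card_univ, Fintype.card_fin, nsmul_eq_mul]
  have hsx' : ∑ t, ∑ i, (Real.log (nrm f (x t)) - Real.log (f (y t i))) =
      -(∑ t, ∑ i, (Real.log (f (y t i)) - Real.log (nrm f (x t)))) := by
    rw [← Finset.sum_neg_distrib]
    refine Finset.sum_congr rfl fun t _ => ?_
    rw [← Finset.sum_neg_distrib]
    exact Finset.sum_congr rfl fun i _ => (neg_sub _ _).symm
  rw [hsx y] at hlog
  have hgoal : ∑ t, ∑ i, (Real.log (nrm f (x t)) - Real.log (f ((B t).mulVec (x t) i))) =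
      -(∑ t, ∑ i, Real.log (f (y t i)) - ∑ t, (n t : ℝ) * Real.log (nrm f (x t))) := by
    rw [← hsx x, ← hsx']
  rw [hgoal]
  have h3 : ∑ t, (((e t : ℝ) + n t) * (Real.log (nrm f (y t)) - Real.log (nrm f (x t)))) =
      (∑ t, (e t : ℝ) * Real.log (nrm f (y t)) + ∑ t, (n t : ℝ) * Real.log (nrm f (y t))) -
      (∑ t, (e t : ℝ) * Real.log (nrm f (x t)) + ∑ t, (n t : ℝ) * Real.log (nrm f (x t))) := by
    rw [← Finset.sum_add_distrib, ← Finset.sum_add_distrib, ← Finset.sum_sub_distrib]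
    exact Finset.sum_congr rfl fun t _ => by ring
  rw [h3] at hcmp
  linarith

end Pool.Agent.V5helper83.PS
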