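import Mathlib
import Pool.Agent.V5helper83.PS.Loc
import Pool.Agent.R405.Arr

/-!
Multiplier ideals of arrangements in products of projective spaces: rational points.
-/

set_option autoImplicit false
set_option linter.unusedSectionVars false

open Finset

namespace Pool.Agent.V5helper83.PS

open NumberField IsDedekindDomain Height Module MvPolynomial
open Pool.Agent.W180.OP (Pl av wt nrm le_nrm nrm_pos nrm_nonneg exists_nrm wt_nonneg)
open Pool.Agent.R405 (Good exists_good schV descend exv exv_ne dot greedy exists_big)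

variable {τ : Type} [Fintype τ] [DecidableEq τ] {n : τ → ℕ}

theorem mulVec_bd {K : Type} [Field K] (f : AbsoluteValue K ℝ)
    (B : ∀ t, Matrix (Fin (n t)) (Fin (n t)) K) (t : τ) (x : Fin (n t) → K) :
    nrm f ((B t).mulVec x) ≤ (1 + ∑ t, ∑ i, ∑ j, f (B t i j)) * nrm f x := by
  classical
  have hN := nrm_nonneg f x
  have h0 : ∀ t, 0 ≤ ∑ i, ∑ j, f (B t i j) := fun t =>
    Finset.sum_nonneg fun _ _ => Finset.sum_nonneg fun _ _ => f.nonneg _
  have h00 : 0 ≤ ∑ t, ∑ i, ∑ j, f (B t i j) := Finset.sum_nonneg fun t _ => h0 t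
  refine nrm_le' (by positivity) fun i => ?_
  have h1 : f ((B t).mulVec x i) ≤ ∑ j, f (B t i j) * nrm f x := by
    rw [Matrix.mulVec, dotProduct]
    refine (f.sum_le _ _).trans (Finset.sum_le_sum fun j _ => ?_)
    rw [map_mul]
    exact mul_le_mul_of_nonneg_left (le_nrm f x j) (f.nonneg _)
  rw [← Finset.sum_mul] at h1
  refine h1.trans (mul_le_mul_of_nonneg_right ?_ hN)
  have h2 : ∑ j, f (B t i j) ≤ ∑ i, ∑ j, f (B t i j) :=
    Finset.single_le_sum (f := fun i => ∑ j, f (B t i j))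
      (fun _ _ => Finset.sum_nonneg fun _ _ => f.nonneg _) (Finset.mem_univ i)
  have h3 : ∑ i, ∑ j, f (B t i j) ≤ ∑ t, ∑ i, ∑ j, f (B t i j) :=
    Finset.single_le_sum (f := fun t => ∑ i, ∑ j, f (B t i j))
      (fun t _ => h0 t) (Finset.mem_univ t)
  linarith

/-- the local height of the ideal generated by `F` -/
noncomputable def lamP {k : Type} [Field k] (f : AbsoluteValue k ℝ) {a : ℕ}
    (D : Fin a → (∀ t, Fin (n t) → k) → ℝ)
    (F : Fin a → MvPolynomial (Cd n) k) (x : ∀ t, Fin (n t) → k) : ℝ :=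
  -Real.log (⨆ j, f (eval (fun v : Cd n => x v.1 v.2) (F j)) / D j x)

section

variable {k K : Type} [Field k] [NumberField k] [Field K] [NumberField K] [Algebra k K]
variable {ι : τ → Type} [∀ t, Fintype (ι t)] [∀ t, DecidableEq (ι t)]

theorem aeval_up (x : ∀ t, Fin (n t) → k) (P : MvPolynomial (Cd n) k) :
    aeval (fun v : Cd n => exv K (x v.1) v.2) P =
      algebraMap k K (eval (fun v : Cd n => x v.1 v.2) P) := by
  have h2 := MvPolynomial.aeval_algebraMap_apply K (fun v : Cd n => x v.1 v.2) P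
  rw [aeval_eq_eval] at h2
  exact h2

theorem arrK [IsGalois ℚ K] (hi : ∃ z : K, z ^ 2 = -1) (hn : ∀ t, 1 ≤ n t)
    (L : ∀ t, ι t → Fin (n t) → K) (hL0 : ∀ t l, L t l ≠ 0)
    (hspan : ∀ t, ∃ β : Fin (n t) → ι t, (Matrix.of fun a => L t (β a)).det ≠ 0) :
    ∃ Z : ∀ t, Finset (Fin (n t) → k), (∀ t, ∀ z ∈ Z t, z ≠ 0) ∧
      ∀ (a : ℕ) (Fs : Fin a → MvPolynomial (Cd n) k)
      (c : Fin a → K) (d : Fin a → ℕ) (σ : ∀ j, Fin (d j) → Σ t, ι t),
      (∀ j, map (algebraMap k K) (Fs j) = C (c j) * ∏ s, lfb (σ j s).1 (L _ (σ j s).2)) →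
      (∃ j, Fs j ≠ 0) →
      ∀ (b : ℕ) (us : Fin b → MvPolynomial (Cd n) k) (e : Fin b → τ → ℕ),
      (∀ i, MHom (e i) (us i)) → (∀ i, InMult Fs (us i)) →
      ∀ (S : Finset (Pl k)) (ε : ℝ), 0 < ε → ∃ C : ℝ, ∀ x : ∀ t, Fin (n t) → k, (∀ t, x t ≠ 0) →
        (∀ t, ∀ z ∈ Z t, ∑ j, z j * x t j ≠ 0) →
        (∃ i, eval (fun v : Cd n => x v.1 v.2) (us i) ≠ 0) →
        ∑ v ∈ S, wt v * (lamP (av v) (fun j x => ∏ s, nrm (av v) (x (σ j s).1)) Fs x -
          lamP (av v) (fun i x => ∏ t, nrm (av v) (x t) ^ e i t) us x) ≤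
          ∑ t, (n t + ε) * logHeight (x t) + C := by
  classical
  choose Z0 hZ0 hmain using fun t => schV (k := k) hi (hn t) (L t)
  have hdes : ∀ t l, ∃ g : Fin (n t) → k, g ≠ 0 ∧ ∀ x : Fin (n t) → k,
      ∑ j, g j * x j ≠ 0 → ∑ j, L t l j * algebraMap k K (x j) ≠ 0 := fun t l =>
    descend (k := k) (L t l) (hL0 t l)
  choose g hg0 hg using hdes
  refine ⟨fun t => Z0 t ∪ Finset.univ.image (g t), ?_, ?_⟩
  · intro t z hz
    rcases Finset.mem_union.1 hz with hz | hz
    · exact hZ0 t z hz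
    · obtain ⟨l, -, rfl⟩ := Finset.mem_image.1 hz
      exact hg0 t l
  intro a Fs c d σ hfac hne b us e hus hm S ε hε
  choose f hf using fun v : Pl k => exists_good (K := K) v
  choose C0 hC0 hsch using fun t => hmain t S f (fun v _ => hf v) ε hε
  -- the local constants
  have hloc : ∀ (v : Pl k) (β : ∀ t, Fin (n t) → ι t) (i : Fin b), ∃ C : ℝ, 0 ≤ C ∧
      ((∀ t, (Matrix.of fun a => L t (β t a)).det ≠ 0) → ∀ x : ∀ t, Fin (n t) → K, (∀ t, x t ≠ 0) →
      (∀ t l, dot (L t l) (x t) ≠ 0) →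
      (∀ t, ∀ B' : Matrix (Fin (n t)) (Fin (n t)) K, B' * (Matrix.of fun a => L t (β t a)) = 1 →
        ∀ l i, Matrix.vecMul (L t l) B' i ≠ 0 →
          f v (dot (L t (β t i)) (x t)) ≤ f v (dot (L t l) (x t))) →
      aeval (fun v : Cd n => x v.1 v.2) (us i) ≠ 0 →
      0 < ⨆ j, f v (aeval (fun v : Cd n => x v.1 v.2) (Fs j)) / ∏ s, nrm (f v) (x (σ j s).1) →
      -Real.log (⨆ j, f v (aeval (fun v : Cd n => x v.1 v.2) (Fs j)) /
        ∏ s, nrm (f v) (x (σ j s).1)) ≤
        -Real.log (f v (aeval (fun v : Cd n => x v.1 v.2) (us i)) /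
          ∏ t, nrm (f v) (x t) ^ e i t) +
        ∑ t, ∑ i, (Real.log (nrm (f v) (x t)) - Real.log (f v (dot (L t (β t i)) (x t)))) + C) := by
    intro v β i
    by_cases hβ : ∀ t, (Matrix.of fun a => L t (β t a)).det ≠ 0
    · set A : ∀ t, Matrix (Fin (n t)) (Fin (n t)) K := fun t => Matrix.of fun a => L t (β t a) with hA
      have hu : ∀ t, IsUnit (A t).det := fun t => IsUnit.mk0 _ (hβ t)
      have hB : ∀ t, A t * (A t)⁻¹ = 1 := fun t => Matrix.mul_nonsing_inv _ (hu t)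
      have hB2 : ∀ t, (A t)⁻¹ * A t = 1 := fun t => Matrix.nonsing_inv_mul _ (hu t)
      set κ : ℝ := 1 + ∑ t, ∑ i, ∑ j, f v (A t i j) with hκ
      set κ' : ℝ := 1 + ∑ t, ∑ i, ∑ j, f v ((A t)⁻¹ i j) with hκ'
      have hκ1 : 1 ≤ κ := by
        have : 0 ≤ ∑ t, ∑ i, ∑ j, f v (A t i j) := Finset.sum_nonneg fun _ _ =>
          Finset.sum_nonneg fun _ _ => Finset.sum_nonneg fun _ _ => (f v).nonneg _
        linarith
      have hκ'1 : 1 ≤ κ' := by
        have : 0 ≤ ∑ t, ∑ i, ∑ j, f v ((A t)⁻¹ i j) := Finset.sum_nonneg fun _ _ =>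
          Finset.sum_nonneg fun _ _ => Finset.sum_nonneg fun _ _ => (f v).nonneg _
        linarith
      set M : ℝ := 1 + ∑ j, (f v (c j))⁻¹ * κ' ^ d j with hM
      have hMj0 : ∀ j, 0 ≤ (f v (c j))⁻¹ * κ' ^ d j := fun j =>
        mul_nonneg (inv_nonneg.2 ((f v).nonneg _)) (pow_nonneg (by linarith) _)
      have hM1 : 1 ≤ M := by
        have : 0 ≤ ∑ j, (f v (c j))⁻¹ * κ' ^ d j := Finset.sum_nonneg fun j _ => hMj0 j
        linarith
      have hMj : ∀ j, (f v (c j))⁻¹ * κ' ^ d j ≤ M := by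
        intro j
        have := Finset.single_le_sum (f := fun j => (f v (c j))⁻¹ * κ' ^ d j) (fun j _ => hMj0 j)
          (Finset.mem_univ j)
        have h3 : (f v (c j))⁻¹ * κ' ^ d j ≤ ∑ j, (f v (c j))⁻¹ * κ' ^ d j := this
        linarith
      set cu : ℝ := 1 + csV (f v) (sub k (Matrix.blockDiagonal' fun t => (A t)⁻¹) (us i)) with hcu
      have hcu0 := csV_nonneg (f v) (sub k (Matrix.blockDiagonal' fun t => (A t)⁻¹) (us i))
      refine ⟨Real.log cu + Real.log M + (∑ t, ((e i t : ℝ) + n t)) * Real.log κ, ?_,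
        fun _ x hx hLx hgr hux hs => ?_⟩
      · have h1 := Real.log_nonneg hκ1
        have h2 := Real.log_nonneg hM1
        have h3 : 0 ≤ Real.log cu := Real.log_nonneg (by linarith)
        have h4 : (0 : ℝ) ≤ ∑ t, ((e i t : ℝ) + n t) := Finset.sum_nonneg fun t _ => by positivity
        positivity
      · exact toricP (f v) A (fun t => (A t)⁻¹) hB hB2 (fun l : Σ t, ι t => l.1)
          (fun l => L l.1 l.2) Fs c d σ hfac (us i) (e i) (hus i) (hm i) κ κ' M cu hκ1
          (fun t x => mulVec_bd (f v) A t x) hκ'1 (fun t x => mulVec_bd (f v) (fun t => (A t)⁻¹) t x) hM1 hMj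
          (by linarith) (by linarith) x hx (fun t i => hLx t _)
          (fun l i hli => hgr l.1 _ (hB2 l.1) l.2 i hli) hux hs
    · exact ⟨0, le_rfl, fun h => absurd h hβ⟩
  choose C hC0' hC using hloc
  refine ⟨∑ v ∈ S, wt v * ∑ β, ∑ i, C v β i + ∑ t, C0 t, fun x hx hZx hux => ?_⟩
  have hxK : ∀ t, exv K (x t) ≠ 0 := fun t => exv_ne (hx t)
  have hLx : ∀ t l, dot (L t l) (exv K (x t)) ≠ 0 := fun t l =>
    hg t l (x t) (hZx t _ (Finset.mem_union_right _ (Finset.mem_image_of_mem _ (Finset.mem_univ _))))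
  choose β hβ hgr using fun (v : Pl k) (t : τ) => greedy (f v) (L t) (hspan t) (exv K (x t)) (hLx t)
  have h1 : ∀ t, _ := fun t => hsch t (x t) (hx t)
    (fun z hz => hZx t z (Finset.mem_union_left _ hz)) (hLx t) (fun v => β v t) (fun v _ => hβ v t)
  -- the generators do not vanish
  have hFx : ∃ j, eval (fun v : Cd n => x v.1 v.2) (Fs j) ≠ 0 := by
    obtain ⟨j, hj⟩ := hne
    refine ⟨j, fun h0 => ?_⟩
    have h2 : aeval (fun v : Cd n => exv K (x v.1) v.2) (Fs j) =
        c j * ∏ s, dot (L _ (σ j s).2) (exv K (x (σ j s).1)) := by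
      have h3 : aeval (fun v : Cd n => exv K (x v.1) v.2) (Fs j) =
          eval (fun v : Cd n => exv K (x v.1) v.2) (map (algebraMap k K) (Fs j)) := by
        rw [eval_map, aeval_def]
      rw [h3, hfac, map_mul, eval_C, map_prod]
      congr 1
      exact Finset.prod_congr rfl fun s _ => eval_lfb _ _ (fun t => exv K (x t))
    have h3 : aeval (fun v : Cd n => exv K (x v.1) v.2) (Fs j) = 0 := by
      rw [aeval_up, h0, map_zero]
    rw [h2] at h3
    have h4 : c j ≠ 0 := by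
      intro h5
      apply hj
      apply map_injective _ (algebraMap k K).injective
      rw [hfac, h5, C_0, zero_mul, map_zero]
    exact mul_ne_zero h4 (Finset.prod_ne_zero_iff.2 fun s _ => hLx _ _) h3
  have hkey : ∀ v ∈ S, wt v * (lamP (av v) (fun j x => ∏ s, nrm (av v) (x (σ j s).1)) Fs x -
        lamP (av v) (fun i x => ∏ t, nrm (av v) (x t) ^ e i t) us x) ≤
      wt v * ∑ t, ∑ a, (Real.log (nrm (av v) (x t)) -
        Real.log (f v (dot (L t (β v t a)) (exv K (x t))))) +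
      wt v * ∑ β, ∑ i, C v β i := by
    intro v _
    rw [← mul_add]
    refine mul_le_mul_of_nonneg_left ?_ (wt_nonneg v)
    have hN : ∀ t, 0 < nrm (av v) (x t) := fun t => nrm_pos _ (hx t)
    have hnrm : ∀ t, nrm (f v) (exv K (x t)) = nrm (av v) (x t) := fun t => (hf v).nrm_ext (x t)
    have hae : ∀ P : MvPolynomial (Cd n) k, f v (aeval (fun v : Cd n => exv K (x v.1) v.2) P) =
        av v (eval (fun v : Cd n => x v.1 v.2) P) := fun P => by
      rw [aeval_up, (hf v).ext]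
    have hb : 0 < b := by
      obtain ⟨i, _⟩ := hux
      exact Fin.pos i
    have : Nonempty (Fin b) := ⟨⟨0, hb⟩⟩
    have hE0 : ∀ i, 0 < ∏ t, nrm (av v) (x t) ^ e i t := fun i =>
      Finset.prod_pos fun t _ => pow_pos (hN t) _
    have hD0 : ∀ j, 0 < ∏ s, nrm (av v) (x (σ j s).1) := fun j =>
      Finset.prod_pos fun s _ => hN _
    obtain ⟨i, hi'⟩ := exists_eq_ciSup_of_finite
      (f := fun i : Fin b => av v (eval (fun v : Cd n => x v.1 v.2) (us i)) /
        ∏ t, nrm (av v) (x t) ^ e i t)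
    have hbdd : BddAbove (Set.range fun i : Fin b =>
        av v (eval (fun v : Cd n => x v.1 v.2) (us i)) / ∏ t, nrm (av v) (x t) ^ e i t) :=
      (Set.finite_range _).bddAbove
    have hpos : 0 < av v (eval (fun v : Cd n => x v.1 v.2) (us i)) /
        ∏ t, nrm (av v) (x t) ^ e i t := by
      obtain ⟨i1, hi1⟩ := hux
      have h2 : 0 < av v (eval (fun v : Cd n => x v.1 v.2) (us i1)) /
          ∏ t, nrm (av v) (x t) ^ e i1 t := div_pos ((av v).pos_iff.2 hi1) (hE0 _)
      have h3 := le_ciSup hbdd i1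
      rw [← hi'] at h3
      exact h2.trans_le h3
    have hui : eval (fun v : Cd n => x v.1 v.2) (us i) ≠ 0 := by
      intro h0
      rw [h0, map_zero, zero_div] at hpos
      exact lt_irrefl _ hpos
    have hbddF : BddAbove (Set.range fun j : Fin a =>
        av v (eval (fun v : Cd n => x v.1 v.2) (Fs j)) / ∏ s, nrm (av v) (x (σ j s).1)) :=
      (Set.finite_range _).bddAbove
    have hFpos : 0 < ⨆ j, f v (aeval (fun v : Cd n => exv K (x v.1) v.2) (Fs j)) /
        ∏ s, nrm (f v) (exv K (x (σ j s).1)) := by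
      obtain ⟨j, hj⟩ := hFx
      simp only [hae, hnrm]
      exact (div_pos ((av v).pos_iff.2 hj) (hD0 j)).trans_le (le_ciSup hbddF j)
    have h2 := hC v (β v) i (hβ v) (fun t => exv K (x t)) hxK hLx (hgr v) (by
      intro h0
      have h3 := hae (us i)
      rw [h0, map_zero] at h3
      exact hui ((AbsoluteValue.eq_zero _).1 h3.symm)) hFpos
    simp only [hae, hnrm] at h2
    unfold lamP
    rw [← hi']
    have h3 : C v (β v) i ≤ ∑ β, ∑ i, C v β i := by
      have h4 : C v (β v) i ≤ ∑ i, C v (β v) i :=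
        Finset.single_le_sum (f := fun i => C v (β v) i) (fun i _ => hC0' v (β v) i)
          (Finset.mem_univ i)
      exact h4.trans (Finset.single_le_sum (f := fun β => ∑ i, C v β i)
        (fun β _ => Finset.sum_nonneg fun i _ => hC0' v β i) (Finset.mem_univ (β v)))
    linarith
  have h2 := Finset.sum_le_sum hkey
  rw [Finset.sum_add_distrib] at h2
  have h3 : ∑ v ∈ S, wt v * ∑ t, ∑ a, (Real.log (nrm (av v) (x t)) -
      Real.log (f v (dot (L t (β v t a)) (exv K (x t))))) =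
      ∑ t, ∑ v ∈ S, wt v * ∑ a, (Real.log (nrm (av v) (x t)) -
      Real.log (f v (dot (L t (β v t a)) (exv K (x t))))) := by
    rw [Finset.sum_comm]
    exact Finset.sum_congr rfl fun v _ => Finset.mul_sum _ _ _
  have h4 : ∑ t, ∑ v ∈ S, wt v * ∑ a, (Real.log (nrm (av v) (x t)) -
      Real.log (f v (dot (L t (β v t a)) (exv K (x t))))) ≤
      ∑ t, ((n t + ε) * logHeight (x t) + C0 t) := Finset.sum_le_sum fun t _ => h1 t
  rw [Finset.sum_add_distrib] at h4
  linarith

theorem map_lfb {M : Type} [Field M] [Algebra K M] (t : τ) (b : Fin (n t) → K) :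
    map (algebraMap K M) (lfb t b) = lfb t (exv M b) := by
  unfold lfb
  rw [map_sum]
  refine Finset.sum_congr rfl fun i _ => ?_
  rw [map_mul, map_C, map_X]
  rfl

/-- **arrangement ideals in products of projective spaces** -/
theorem arrP (hn : ∀ t, 1 ≤ n t) (L : ∀ t, ι t → Fin (n t) → K) (hL0 : ∀ t l, L t l ≠ 0) :
    ∃ Z : ∀ t, Finset (Fin (n t) → k), (∀ t, ∀ z ∈ Z t, z ≠ 0) ∧
      ∀ (a : ℕ) (Fs : Fin a → MvPolynomial (Cd n) k)
      (c : Fin a → K) (d : Fin a → ℕ) (σ : ∀ j, Fin (d j) → Σ t, ι t),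
      (∀ j, map (algebraMap k K) (Fs j) = C (c j) * ∏ s, lfb (σ j s).1 (L _ (σ j s).2)) →
      (∃ j, Fs j ≠ 0) →
      ∀ (b : ℕ) (us : Fin b → MvPolynomial (Cd n) k) (e : Fin b → τ → ℕ),
      (∀ i, MHom (e i) (us i)) → (∀ i, InMult Fs (us i)) →
      ∀ (S : Finset (Pl k)) (ε : ℝ), 0 < ε → ∃ C : ℝ, ∀ x : ∀ t, Fin (n t) → k, (∀ t, x t ≠ 0) →
        (∀ t, ∀ z ∈ Z t, ∑ j, z j * x t j ≠ 0) →
        (∃ i, eval (fun v : Cd n => x v.1 v.2) (us i) ≠ 0) →
        ∑ v ∈ S, wt v * (lamP (av v) (fun j x => ∏ s, nrm (av v) (x (σ j s).1)) Fs x -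
          lamP (av v) (fun i x => ∏ t, nrm (av v) (x t) ^ e i t) us x) ≤
          ∑ t, (n t + ε) * logHeight (x t) + C := by
  classical
  obtain ⟨M, hM1, hM2, hi, ⟨φ⟩⟩ := exists_big K
  have : NumberField M := ⟨⟩
  let _ : Algebra K M := φ.toAlgebra
  let _ : Algebra k M := (φ.comp (algebraMap k K)).toAlgebra
  have : IsScalarTower k K M := IsScalarTower.of_algebraMap_eq fun _ => rfl
  set L' : ∀ t, ι t ⊕ Fin (n t) → Fin (n t) → M := fun t =>
    Sum.elim (fun l => exv M (L t l)) (fun i => Pi.single i 1) with hL'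
  obtain ⟨Z, hZ, hmain⟩ := arrK (k := k) (ι := fun t => ι t ⊕ Fin (n t)) hi hn L' (by
    intro t l
    rcases l with l | i
    · exact exv_ne (hL0 t l)
    · intro h
      have := congrFun h i
      simp [hL'] at this) fun t => ⟨fun i => Sum.inr i, by
      have h1 : (Matrix.of fun a => L' t (Sum.inr a)) = (1 : Matrix (Fin (n t)) (Fin (n t)) M) := by
        ext i j
        simp only [hL', Matrix.of_apply, Sum.elim_inr]
        by_cases h : i = j
        · subst h; simp
        · rw [Pi.single_eq_of_ne (Ne.symm h), Matrix.one_apply_ne h]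
      rw [h1, Matrix.det_one]
      exact one_ne_zero⟩
  refine ⟨Z, hZ, fun a Fs c d σ hfac => hmain a Fs (fun j => algebraMap K M (c j)) d
    (fun j s => ⟨(σ j s).1, Sum.inl (σ j s).2⟩) fun j => ?_⟩
  have h1 := congrArg (map (algebraMap K M)) (hfac j)
  rw [MvPolynomial.map_map, map_mul, map_prod, map_C] at h1
  simp only [map_lfb] at h1
  exact h1

end

end Pool.Agent.V5helper83.PS
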