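import Mathlib
import Pool.Agent.V5helper83.PS.Loc
import Pool.Agent.R405.TP5

/-!
Uniform constants in all extensions.
-/

set_option autoImplicit false
set_option linter.unusedSectionVars false

open Finset

namespace Pool.Agent.V5helper83.PS

open NumberField IsDedekindDomain Height Module MvPolynomial
open Pool.Agent.W180.OP (Pl av wt nrm le_nrm nrm_pos nrm_nonneg exists_nrm wt_nonneg)
open Pool.Agent.R405.TP (kap liouU)

variable {k : Type} [Field k] [NumberField k]

theorem wt_le {E : Type} [Field E] [NumberField E] (p : Pl E) : wt p ≤ 2 := by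
  rcases p with w | v
  · show (w.mult : ℝ) ≤ 2
    unfold InfinitePlace.mult
    split_ifs
    · norm_num
    · norm_num
  · show (1 : ℝ) ≤ 2
    norm_num

theorem unif {α : Type} [Fintype α] (γ : α → k) : ∃ C : ℝ, 0 ≤ C ∧ ∀ (E : Type) [Field E]
    [NumberField E] [Algebra k E] (p : Pl E),
    wt p * Real.log (1 + ∑ i, av p (algebraMap k E (γ i))) ≤ finrank k E * C := by
  classical
  set r := Fintype.card α with hr
  set en := Fintype.equivFin α with hen
  set g : Fin (r + 1) → k := Fin.cons 1 (fun i => γ (en.symm i)) with hg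
  have hrr : (1 : ℝ) ≤ r + 1 := by
    have : (0 : ℝ) ≤ r := Nat.cast_nonneg _
    linarith
  have hlr : 0 ≤ Real.log (r + 1) := Real.log_nonneg hrr
  have hh : 0 ≤ logHeight g := logHeight_nonneg g
  refine ⟨2 * Real.log (r + 1) + logHeight g, by positivity, ?_⟩
  intro E _ _ _ p
  set gE : Fin (r + 1) → E := fun i => algebraMap k E (g i) with hgE
  have hg0 : gE 0 = 1 := by
    rw [hgE, hg]
    simp
  have hgE1 : ∀ p : Pl E, 1 ≤ nrm (av p) gE := by
    intro p
    have h1 := le_nrm (av p) gE 0
    rwa [hg0, map_one] at h1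
  have hgE0 : gE ≠ 0 := by
    intro h
    rw [h] at hg0
    exact zero_ne_one hg0
  have hfd : FiniteDimensional k E := by
    exact Module.Finite.of_restrictScalars_finite ℚ k E
  have hdeg : (1 : ℝ) ≤ finrank k E := by exact_mod_cast Module.finrank_pos (R := k) (M := E)
  have h1 := (liouU (L := E) (N := 1) (fun _ => (1 : E)) (fun h => one_ne_zero (congrFun h 0)) 1
    one_ne_zero gE hgE0 1 le_rfl hgE1 (by
      intro p
      have h2 : nrm (av p) (fun _ : Fin 1 => (1 : E)) = 1 := by
        unfold nrm
        rw [ciSup_const, map_one]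
      rw [h2, map_one, mul_one]
      rcases p with w | v
      · show 1 ≤ 1 * nrm _ _
        rw [one_mul]
        exact hgE1 _
      · exact hgE1 _) {p}).2
  rw [Finset.sum_singleton, Real.log_one, mul_zero, add_zero] at h1
  have h2 : kap 1 gE p = nrm (av p) gE := by
    rcases p with w | v
    · show 1 * nrm _ _ = _
      rw [one_mul]
    · rfl
  rw [h2, hgE, Pool.Agent.Helper259.HtExt.logHeight_ext] at h1
  have h3 : ∀ i, av p (algebraMap k E (γ i)) ≤ nrm (av p) gE := by
    intro i
    have h4 := le_nrm (av p) gE (Fin.succ (en i))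
    have h5 : gE (Fin.succ (en i)) = algebraMap k E (γ i) := by
      rw [hgE, hg]
      simp
    rwa [h5] at h4
  have h4 : 1 + ∑ i, av p (algebraMap k E (γ i)) ≤ (r + 1) * nrm (av p) gE := by
    have h5 := Finset.sum_le_sum fun i (_ : i ∈ (Finset.univ : Finset α)) => h3 i
    rw [Finset.sum_const, Finset.card_univ, nsmul_eq_mul] at h5
    have h6 := hgE1 p
    rw [add_mul, one_mul]
    linarith
  have h5 : 0 ≤ ∑ i, av p (algebraMap k E (γ i)) := Finset.sum_nonneg fun _ _ => (av p).nonneg _
  have h6 := Real.log_le_log (by linarith) h4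
  have h7 : 0 < nrm (av p) gE := by linarith [hgE1 p]
  rw [Real.log_mul (by linarith) h7.ne'] at h6
  have h8 := mul_le_mul_of_nonneg_left h6 (wt_nonneg p)
  refine h8.trans ?_
  rw [mul_add, mul_add]
  refine add_le_add ?_ h1
  have h9 : wt p * Real.log (r + 1) ≤ 2 * Real.log (r + 1) :=
    mul_le_mul_of_nonneg_right (wt_le p) hlr
  refine h9.trans (le_mul_of_one_le_left (by positivity) hdeg)

variable {V : Type} [Fintype V] [DecidableEq V] {E : Type} [Field E] [Algebra k E]

theorem sub_base (B' : Matrix V V k) (P : MvPolynomial V k) :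
    sub k (B'.map (algebraMap k E)) P = map (algebraMap k E) (sub k B' P) := by
  have h1 : sub k (B'.map (algebraMap k E)) = (MvPolynomial.map (algebraMap k E)).comp (sub k B') := by
    apply MvPolynomial.ringHom_ext
    · intro c
      simp only [RingHom.comp_apply]
      rw [sub_C, sub_C, map_C]
      rfl
    · intro j
      simp only [RingHom.comp_apply]
      rw [sub_X, sub_X]
      unfold lff
      rw [map_sum]
      refine Finset.sum_congr rfl fun i _ => ?_
      rw [map_mul, map_C, map_X, Matrix.map_apply]
  exact RingHom.congr_fun h1 P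

theorem csV_base (f : AbsoluteValue E ℝ) (Q : MvPolynomial V k) :
    csV f (map (algebraMap k E) Q) = ∑ m : Q.support, f (algebraMap k E (coeff m.1 Q)) := by
  unfold csV
  rw [MvPolynomial.support_map_of_injective _ (algebraMap k E).injective, ← Finset.sum_coe_sort]
  refine Finset.sum_congr rfl fun m _ => ?_
  rw [coeff_map]

end Pool.Agent.V5helper83.PS
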