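import Mathlib
import Pool.Agent.V5helper83.PS.Unif
import Pool.Agent.V5helper83.PS.Sch

/-!
Multiplier ideals of arrangements in products of projective spaces: few places.
-/

set_option autoImplicit false
set_option linter.unusedSectionVars false

open Finset

namespace Pool.Agent.V5helper83.PS

open NumberField IsDedekindDomain Height Module MvPolynomial
open Pool.Agent.W180.OP (Pl av wt nrm le_nrm nrm_pos nrm_nonneg exists_nrm wt_nonneg)
open Pool.Agent.R405 (exv dot)
open Pool.Agent.R405.IQ (wc)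
open Pool.Agent.R405.TP (tpB greedyQ pair_sum)

variable {τ : Type} [Fintype τ] [DecidableEq τ] {n : τ → ℕ}
variable {k : Type} [Field k] [NumberField k]

/-- the local height at a point over an extension -/
noncomputable def lamE {E : Type} [Field E] [Algebra k E] (f : AbsoluteValue E ℝ) {a : ℕ}
    (D : Fin a → (∀ t, Fin (n t) → E) → ℝ)
    (F : Fin a → MvPolynomial (Cd n) k) (x : ∀ t, Fin (n t) → E) : ℝ :=
  -Real.log (⨆ j, f (aeval (fun v : Cd n => x v.1 v.2) (F j)) / D j x)

/-- the local constants are uniform -/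
theorem locU (A : ∀ t, Matrix (Fin (n t)) (Fin (n t)) k) {a : ℕ} (c : Fin a → k)
    (u : MvPolynomial (Cd n) k) (D e : ℝ) (hD : 0 ≤ D) (he : 0 ≤ e) :
    ∃ C : ℝ, 0 ≤ C ∧ ∀ (E : Type) [Field E] [NumberField E] [Algebra k E] (p : Pl E),
      wt p * (Real.log (1 + csV (av p) (sub k (Matrix.blockDiagonal' fun t =>
          (algebraMap k E).mapMatrix (A t)⁻¹) u)) +
        Real.log ((1 + ∑ j, av p (algebraMap k E (c j)⁻¹)) *
          (1 + ∑ t, ∑ i, ∑ j, av p ((algebraMap k E).mapMatrix (A t)⁻¹ i j)) ^ D) +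
        e * Real.log (1 + ∑ t, ∑ i, ∑ j, av p ((algebraMap k E).mapMatrix (A t) i j))) ≤
      finrank k E * C := by
  classical
  obtain ⟨C1, h10, h1⟩ := unif (k := k) (α := (sub k (Matrix.blockDiagonal' fun t => (A t)⁻¹) u).support)
    (fun m => coeff m.1 (sub k (Matrix.blockDiagonal' fun t => (A t)⁻¹) u))
  obtain ⟨C2, h20, h2⟩ := unif (k := k) (α := Fin a) (fun j => (c j)⁻¹)
  obtain ⟨C3, h30, h3⟩ := unif (k := k) (α := Σ t : τ, Fin (n t) × Fin (n t))
    (fun v => (A v.1)⁻¹ v.2.1 v.2.2)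
  obtain ⟨C4, h40, h4⟩ := unif (k := k) (α := Σ t : τ, Fin (n t) × Fin (n t))
    (fun v => A v.1 v.2.1 v.2.2)
  refine ⟨C1 + (C2 + D * C3) + e * C4, by positivity, ?_⟩
  intro E _ _ _ p
  have hs : ∀ B : ∀ t, Matrix (Fin (n t)) (Fin (n t)) k,
      ∑ t, ∑ i, ∑ j, av p ((algebraMap k E).mapMatrix (B t) i j) =
      ∑ v : Σ t : τ, Fin (n t) × Fin (n t), av p (algebraMap k E (B v.1 v.2.1 v.2.2)) := by
    intro B
    rw [Fintype.sum_sigma]
    refine Finset.sum_congr rfl fun t _ => ?_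
    rw [Fintype.sum_prod_type]
    rfl
  have h1' := h1 E p
  have h2' := h2 E p
  have h3' := h3 E p
  have h4' := h4 E p
  rw [← hs fun t => (A t)⁻¹] at h3'
  rw [← hs A] at h4'
  have hcs : csV (av p) (sub k (Matrix.blockDiagonal' fun t =>
      (algebraMap k E).mapMatrix (A t)⁻¹) u) =
      ∑ m : (sub k (Matrix.blockDiagonal' fun t => (A t)⁻¹) u).support,
        av p (algebraMap k E (coeff m.1 (sub k (Matrix.blockDiagonal' fun t => (A t)⁻¹) u))) := by
    have h5 : (Matrix.blockDiagonal' fun t => (algebraMap k E).mapMatrix (A t)⁻¹) =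
        (Matrix.blockDiagonal' fun t => (A t)⁻¹).map (algebraMap k E) := by
      rw [Matrix.blockDiagonal'_map _ _ (map_zero _)]
      rfl
    rw [h5, sub_base, csV_base]
  rw [← hcs] at h1'
  have hS2 : 0 ≤ ∑ j, av p (algebraMap k E (c j)⁻¹) :=
    Finset.sum_nonneg fun _ _ => (av p).nonneg _
  have hS3 : 0 ≤ ∑ t, ∑ i, ∑ j, av p ((algebraMap k E).mapMatrix (A t)⁻¹ i j) :=
    Finset.sum_nonneg fun _ _ => Finset.sum_nonneg fun _ _ => Finset.sum_nonneg fun _ _ =>
      (av p).nonneg _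
  have hpos3 : 0 < 1 + ∑ t, ∑ i, ∑ j, av p ((algebraMap k E).mapMatrix (A t)⁻¹ i j) := by linarith
  rw [Real.log_mul (by linarith) (Real.rpow_pos_of_pos hpos3 D).ne', Real.log_rpow hpos3]
  have h5 := mul_le_mul_of_nonneg_left h3' hD
  have h6 := mul_le_mul_of_nonneg_left h4' he
  calc _ = wt p * Real.log (1 + csV (av p) (sub k (Matrix.blockDiagonal' fun t =>
          (algebraMap k E).mapMatrix (A t)⁻¹) u)) +
        (wt p * Real.log (1 + ∑ j, av p (algebraMap k E (c j)⁻¹)) +
        D * (wt p * Real.log (1 + ∑ t, ∑ i, ∑ j, av p ((algebraMap k E).mapMatrix (A t)⁻¹ i j)))) +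
        e * (wt p * Real.log (1 + ∑ t, ∑ i, ∑ j, av p ((algebraMap k E).mapMatrix (A t) i j))) := by
        ring
    _ ≤ finrank k E * C1 + (finrank k E * C2 + D * (finrank k E * C3)) +
        e * (finrank k E * C4) := by
        exact add_le_add (add_le_add h1' (add_le_add h2' h5)) h6
    _ = _ := by ring

/-- **arrangement ideals in products of projective spaces, few places** -/
theorem fewP (hn : ∀ t, 1 ≤ n t) (q : τ → ℕ) (H : ∀ t, Fin (q t) → Fin (n t) → k)
    (hH : ∀ t l, H t l ≠ 0) :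
    ∃ Z : ∀ t, Finset (Fin (n t) → k), (∀ t, ∀ z ∈ Z t, z ≠ 0) ∧
      ∀ (a : ℕ) (Fs : Fin a → MvPolynomial (Cd n) k)
      (c : Fin a → k) (d : Fin a → ℕ) (σ : ∀ j, Fin (d j) → Σ t, Fin (q t)),
      (∀ j, Fs j = C (c j) * ∏ s, lfb (σ j s).1 (H _ (σ j s).2)) →
      (∃ j, Fs j ≠ 0) →
      ∀ (b : ℕ) (us : Fin b → MvPolynomial (Cd n) k) (e : Fin b → τ → ℕ),
      (∀ i, MHom (e i) (us i)) → (∀ i, InMult Fs (us i)) →
      ∃ C : ℝ, 0 ≤ C ∧ ∀ (E : Type) [Field E] [NumberField E] [Algebra k E] (W : Finset (Pl E))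
        (x : ∀ t, Fin (n t) → E), (∀ t, x t ≠ 0) →
        (∀ t, ∀ z ∈ Z t, ∑ j, algebraMap k E (z j) * x t j ≠ 0) →
        (∃ i, aeval (fun v : Cd n => x v.1 v.2) (us i) ≠ 0) →
        ∑ p ∈ W, wt p * (lamE (av p) (fun j x => ∏ s, nrm (av p) (x (σ j s).1)) Fs x -
          lamE (av p) (fun i x => ∏ t, nrm (av p) (x t) ^ e i t) us x) ≤
          max 1 ((W.card : ℝ) / 2) * (∑ t, n t * logHeight (x t) + finrank k E * C) := by
  classical
  choose Z0 hZ0 C0 hC0 hmain using fun t => tpB (k := k) (hn t) (H t)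
  refine ⟨fun t => Z0 t ∪ Finset.univ.image (H t), ?_, fun a Fs c d σ hfac hne b us e hus hm => ?_⟩
  · intro t z hz
    rcases Finset.mem_union.1 hz with hz | hz
    · exact hZ0 t z hz
    · obtain ⟨l, -, rfl⟩ := Finset.mem_image.1 hz
      exact hH t l
  have hspan : ∀ t, ∃ β : Fin (n t) → Fin (q t) ⊕ Fin (n t),
      (Matrix.of fun a => wc (H t) (β a)).det ≠ 0 := by
    intro t
    refine ⟨fun i => Sum.inr i, ?_⟩
    have h1 : (Matrix.of fun a => wc (H t) (Sum.inr a)) = (1 : Matrix (Fin (n t)) (Fin (n t)) k) := by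
      ext i j
      simp only [wc, Matrix.of_apply, Sum.elim_inr]
      by_cases h : i = j
      · subst h; simp
      · rw [Pi.single_eq_of_ne (Ne.symm h), Matrix.one_apply_ne h]
    rw [h1, Matrix.det_one]
    exact one_ne_zero
  set Df : ℝ := ((∑ j, d j : ℕ) : ℝ) with hDf
  have hDf0 : 0 ≤ Df := Nat.cast_nonneg _
  choose C1 hC1' hC1 using fun (β : ∀ t, Fin (n t) → Fin (q t) ⊕ Fin (n t)) (i : Fin b) =>
    locU (n := n) (k := k) (fun t => Matrix.of fun a => wc (H t) (β t a)) c (us i) Df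
      (∑ t, ((e i t : ℝ) + n t)) hDf0 (Finset.sum_nonneg fun t _ => by positivity)
  set CT : ℝ := ∑ β, ∑ i, C1 β i with hCT
  have hCT0 : 0 ≤ CT := Finset.sum_nonneg fun β _ => Finset.sum_nonneg fun i _ => hC1' β i
  have hC00 : 0 ≤ ∑ t, C0 t := Finset.sum_nonneg fun t _ => hC0 t
  refine ⟨∑ t, C0 t + 2 * CT, by positivity, ?_⟩
  intro E _ _ _ W x hx hZx hux
  set X : Cd n → E := fun v => x v.1 v.2 with hX
  have hHx : ∀ t l, dot (exv E (H t l)) (x t) ≠ 0 := fun t l =>
    hZx t _ (Finset.mem_union_right _ (Finset.mem_image_of_mem _ (Finset.mem_univ l)))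
  have hpl0 : ∀ t, _ := fun t => hmain t E (x t) (hx t)
    (fun z hz => hZx t z (Finset.mem_union_left _ hz)) (hHx t)
  have hwx : ∀ t l, dot (exv E (wc (H t) l)) (x t) ≠ 0 := fun t => (hpl0 t).1
  choose β hβ hβs hβg using fun (t : τ) (p : Pl E) =>
    greedyQ (av p) (wc (H t)) (hspan t) (x t) (hwx t)
  have hpl : ∀ t, _ := fun t => (hpl0 t).2 (β t) (hβ t) (hβs t)
  have hdegE : (0 : ℝ) ≤ finrank k E := Nat.cast_nonneg _
  set M : Pl E → ℝ := fun p => ∑ t, wt p * ∑ a, (Real.log (nrm (av p) (x t)) -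
      Real.log (av p (dot (exv E (wc (H t) (β t p a))) (x t)))) with hM
  set R : ℝ := ∑ t, (n t * logHeight (x t) + finrank k E * C0 t) with hR
  have hR0 : 0 ≤ R := Finset.sum_nonneg fun t _ => by
    have h1 := logHeight_nonneg (x t)
    have h2 := hC0 t
    positivity
  have hone : ∀ p, M p ≤ R := fun p => Finset.sum_le_sum fun t _ => (hpl t).1 p
  have htwo : ∀ p p', p ≠ p' → M p + M p' ≤ R := by
    intro p p' hpp
    rw [hM]
    simp only
    rw [← Finset.sum_add_distrib]
    exact Finset.sum_le_sum fun t _ => (hpl t).2 p p' hpp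
  have hsumW : ∑ p ∈ W, M p ≤ max 1 ((W.card : ℝ) / 2) * R := by
    rcases Nat.lt_or_ge W.card 2 with h2 | h2
    · have h3 : ∑ p ∈ W, M p ≤ R := by
        rcases Nat.lt_or_ge W.card 1 with h1 | h1
        · rw [Finset.card_eq_zero.1 (by omega : W.card = 0), Finset.sum_empty]
          exact hR0
        · obtain ⟨p, hp⟩ := Finset.card_eq_one.1 (by omega : W.card = 1)
          rw [hp, Finset.sum_singleton]
          exact hone p
      exact h3.trans (le_mul_of_one_le_left hR0 (le_max_left _ _))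
    · refine (pair_sum W M R h2 fun p _ p' _ h => htwo p p' h).trans ?_
      exact mul_le_mul_of_nonneg_right (le_max_right _ _) hR0
  -- the local inequality
  have hlocal : ∀ p : Pl E, wt p * (lamE (av p) (fun j x => ∏ s, nrm (av p) (x (σ j s).1)) Fs x -
          lamE (av p) (fun i x => ∏ t, nrm (av p) (x t) ^ e i t) us x) ≤
      M p + finrank k E * CT := by
    intro p
    set f := av p with hf
    have hN : ∀ t, 0 < nrm f (x t) := fun t => nrm_pos _ (hx t)
    have hE0 : ∀ i, 0 < ∏ t, nrm f (x t) ^ e i t := fun i =>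
      Finset.prod_pos fun t _ => pow_pos (hN t) _
    have hD0 : ∀ j, 0 < ∏ s, nrm f (x (σ j s).1) := fun j => Finset.prod_pos fun s _ => hN _
    set A : ∀ t, Matrix (Fin (n t)) (Fin (n t)) k := fun t =>
      Matrix.of fun a => wc (H t) (β t p a) with hA
    have hu : ∀ t, IsUnit (A t).det := fun t => IsUnit.mk0 _ (hβ t p)
    have hB : ∀ t, (algebraMap k E).mapMatrix (A t) * (algebraMap k E).mapMatrix (A t)⁻¹ = 1 := by
      intro t
      rw [← map_mul, Matrix.mul_nonsing_inv _ (hu t), map_one]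
    have hB2 : ∀ t, (algebraMap k E).mapMatrix (A t)⁻¹ * (algebraMap k E).mapMatrix (A t) = 1 := by
      intro t
      rw [← map_mul, Matrix.nonsing_inv_mul _ (hu t), map_one]
    have hfacE : ∀ j, map (algebraMap k E) (Fs j) = C (algebraMap k E (c j)) *
        ∏ s, lfb (σ j s).1 (exv E (H _ (σ j s).2)) := by
      intro j
      rw [hfac, map_mul, map_prod, map_C]
      congr 1
      exact Finset.prod_congr rfl fun s _ => map_lfb _ _
    -- the generators do not vanish
    have hFx : ∃ j, aeval X (Fs j) ≠ 0 := by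
      obtain ⟨j, hj⟩ := hne
      refine ⟨j, ?_⟩
      have h2 : aeval X (Fs j) = algebraMap k E (c j) *
          ∏ s, dot (exv E (H _ (σ j s).2)) (x (σ j s).1) := by
        have h3 : aeval X (Fs j) = eval X (map (algebraMap k E) (Fs j)) := by
          rw [eval_map, aeval_def]
        rw [h3, hfacE, map_mul, eval_C, map_prod]
        congr 1
        exact Finset.prod_congr rfl fun s _ => eval_lfb _ _ x
      have h4 : c j ≠ 0 := by
        intro h5
        apply hj
        rw [hfac, h5, C_0, zero_mul]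
      rw [h2]
      exact mul_ne_zero ((map_ne_zero _).2 h4) (Finset.prod_ne_zero_iff.2 fun s _ => hHx _ _)
    have hb : 0 < b := by
      obtain ⟨i, _⟩ := hux
      exact Fin.pos i
    have : Nonempty (Fin b) := ⟨⟨0, hb⟩⟩
    obtain ⟨i, hi'⟩ := exists_eq_ciSup_of_finite
      (f := fun i : Fin b => f (aeval X (us i)) / ∏ t, nrm f (x t) ^ e i t)
    have hbdd : BddAbove (Set.range fun i : Fin b => f (aeval X (us i)) /
        ∏ t, nrm f (x t) ^ e i t) := (Set.finite_range _).bddAbove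
    have hpos : 0 < f (aeval X (us i)) / ∏ t, nrm f (x t) ^ e i t := by
      obtain ⟨i1, hi1⟩ := hux
      have h2 : 0 < f (aeval X (us i1)) / ∏ t, nrm f (x t) ^ e i1 t :=
        div_pos (f.pos_iff.2 hi1) (hE0 _)
      have h3 := le_ciSup hbdd i1
      rw [← hi'] at h3
      exact h2.trans_le h3
    have hui : aeval X (us i) ≠ 0 := by
      intro h0
      rw [h0, map_zero, zero_div] at hpos
      exact lt_irrefl _ hpos
    have hbddF : BddAbove (Set.range fun j : Fin a => f (aeval X (Fs j)) /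
        ∏ s, nrm f (x (σ j s).1)) := (Set.finite_range _).bddAbove
    have hFpos : 0 < ⨆ j, f (aeval X (Fs j)) / ∏ s, nrm f (x (σ j s).1) := by
      obtain ⟨j, hj⟩ := hFx
      exact (div_pos (f.pos_iff.2 hj) (hD0 j)).trans_le (le_ciSup hbddF j)
    set κ : ℝ := 1 + ∑ t, ∑ i, ∑ j, f ((algebraMap k E).mapMatrix (A t) i j) with hκ
    set κ' : ℝ := 1 + ∑ t, ∑ i, ∑ j, f ((algebraMap k E).mapMatrix (A t)⁻¹ i j) with hκ'
    set S2 : ℝ := 1 + ∑ j, f (algebraMap k E (c j)⁻¹) with hS2
    set cu : ℝ := 1 + csV f (sub k (Matrix.blockDiagonal' fun t =>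
      (algebraMap k E).mapMatrix (A t)⁻¹) (us i)) with hcu
    have hκ1 : 1 ≤ κ := by
      have : 0 ≤ ∑ t, ∑ i, ∑ j, f ((algebraMap k E).mapMatrix (A t) i j) :=
        Finset.sum_nonneg fun _ _ => Finset.sum_nonneg fun _ _ => Finset.sum_nonneg fun _ _ =>
          f.nonneg _
      linarith
    have hκ'1 : 1 ≤ κ' := by
      have : 0 ≤ ∑ t, ∑ i, ∑ j, f ((algebraMap k E).mapMatrix (A t)⁻¹ i j) :=
        Finset.sum_nonneg fun _ _ => Finset.sum_nonneg fun _ _ => Finset.sum_nonneg fun _ _ =>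
          f.nonneg _
      linarith
    have hS21 : 1 ≤ S2 := by
      have : 0 ≤ ∑ j, f (algebraMap k E (c j)⁻¹) := Finset.sum_nonneg fun _ _ => f.nonneg _
      linarith
    have hcu0 := csV_nonneg f (sub k (Matrix.blockDiagonal' fun t =>
      (algebraMap k E).mapMatrix (A t)⁻¹) (us i))
    have hκD : 1 ≤ κ' ^ Df := Real.one_le_rpow hκ'1 hDf0
    have hM1 : 1 ≤ S2 * κ' ^ Df := one_le_mul_of_one_le_of_one_le hS21 hκD
    have hMj : ∀ j, (f (algebraMap k E (c j)))⁻¹ * κ' ^ d j ≤ S2 * κ' ^ Df := by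
      intro j
      have h1 : (f (algebraMap k E (c j)))⁻¹ = f (algebraMap k E (c j)⁻¹) := by
        rw [map_inv₀, map_inv₀]
      rw [h1]
      refine mul_le_mul ?_ ?_ (pow_nonneg (by linarith) _) (by linarith)
      · have h2 := Finset.single_le_sum (f := fun j => f (algebraMap k E (c j)⁻¹))
          (fun _ _ => f.nonneg _) (Finset.mem_univ j)
        have h3 : f (algebraMap k E (c j)⁻¹) ≤ ∑ j, f (algebraMap k E (c j)⁻¹) := h2
        linarith
      · rw [← Real.rpow_natCast]
        refine Real.rpow_le_rpow_of_exponent_le hκ'1 ?_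
        rw [hDf]
        exact_mod_cast Finset.single_le_sum (f := d) (fun _ _ => Nat.zero_le _) (Finset.mem_univ j)
    have hgr : ∀ (l : Σ t, Fin (q t)) (i : Fin (n l.1)),
        Matrix.vecMul (exv E (H l.1 l.2)) ((algebraMap k E).mapMatrix (A l.1)⁻¹) i ≠ 0 →
        f (((algebraMap k E).mapMatrix (A l.1)).mulVec (x l.1) i) ≤
          f (∑ j, exv E (H l.1 l.2) j * x l.1 j) := by
      intro l i hli
      have h1 : Matrix.vecMul (exv E (H l.1 l.2)) ((algebraMap k E).mapMatrix (A l.1)⁻¹) i =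
          algebraMap k E (Matrix.vecMul (H l.1 l.2) (A l.1)⁻¹ i) := by
        simp only [Matrix.vecMul, dotProduct, map_sum, map_mul]
        rfl
      rw [h1, map_ne_zero] at hli
      exact hβg l.1 p (Sum.inl l.2) i hli
    have h2 := toricP (k := k) f (fun t => (algebraMap k E).mapMatrix (A t))
      (fun t => (algebraMap k E).mapMatrix (A t)⁻¹) hB hB2 (fun l : Σ t, Fin (q t) => l.1)
      (fun l => exv E (H l.1 l.2)) Fs (fun j => algebraMap k E (c j)) d σ hfacE (us i) (e i)
      (hus i) (hm i) κ κ' (S2 * κ' ^ Df) cu hκ1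
      (fun t x => mulVec_bd f (fun t => (algebraMap k E).mapMatrix (A t)) t x) hκ'1
      (fun t x => mulVec_bd f (fun t => (algebraMap k E).mapMatrix (A t)⁻¹) t x) hM1 hMj
      (by linarith) (by linarith) x hx (fun t i => hwx t _) hgr hui hFpos
    have h3 : C1 (fun t => β t p) i ≤ CT := by
      have h4 : C1 (fun t => β t p) i ≤ ∑ i, C1 (fun t => β t p) i :=
        Finset.single_le_sum (f := fun i => C1 (fun t => β t p) i) (fun i _ => hC1' _ i)
          (Finset.mem_univ i)
      exact h4.trans (Finset.single_le_sum (f := fun β => ∑ i, C1 β i)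
        (fun β _ => Finset.sum_nonneg fun i _ => hC1' β i) (Finset.mem_univ (fun t => β t p)))
    have h4 := (hC1 (fun t => β t p) i E p).trans (mul_le_mul_of_nonneg_left h3 hdegE)
    have h5 : lamE f (fun j x => ∏ s, nrm f (x (σ j s).1)) Fs x -
        lamE f (fun i x => ∏ t, nrm f (x t) ^ e i t) us x ≤
        ∑ t, ∑ a, (Real.log (nrm f (x t)) -
          Real.log (f (dot (exv E (wc (H t) (β t p a))) (x t)))) +
        (Real.log cu + Real.log (S2 * κ' ^ Df) + (∑ t, ((e i t : ℝ) + n t)) * Real.log κ) := by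
      unfold lamE
      rw [← hi']
      have h6 : ∀ t a, ((algebraMap k E).mapMatrix (A t)).mulVec (x t) a =
          dot (exv E (wc (H t) (β t p a))) (x t) := fun t a => rfl
      simp only [h6] at h2
      linarith
    have h6 := mul_le_mul_of_nonneg_left h5 (wt_nonneg p)
    rw [mul_add, Finset.mul_sum] at h6
    exact h6.trans (add_le_add le_rfl h4)
  -- the sum
  have h1 := Finset.sum_le_sum fun p (_ : p ∈ W) => hlocal p
  rw [Finset.sum_add_distrib, Finset.sum_const, nsmul_eq_mul] at h1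
  refine h1.trans ((add_le_add hsumW le_rfl).trans ?_)
  have h2 : (W.card : ℝ) ≤ max 1 ((W.card : ℝ) / 2) * 2 := by
    have := le_max_right 1 ((W.card : ℝ) / 2)
    linarith
  have h3 : (W.card : ℝ) * (finrank k E * CT) ≤
      max 1 ((W.card : ℝ) / 2) * 2 * (finrank k E * CT) :=
    mul_le_mul_of_nonneg_right h2 (by positivity)
  have h4 : R = ∑ t, n t * logHeight (x t) + finrank k E * ∑ t, C0 t := by
    rw [hR, Finset.sum_add_distrib, Finset.mul_sum]
  rw [h4]
  calc _ ≤ max 1 ((W.card : ℝ) / 2) * (∑ t, n t * logHeight (x t) + finrank k E * ∑ t, C0 t) +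
        max 1 ((W.card : ℝ) / 2) * 2 * (finrank k E * CT) := add_le_add le_rfl h3
    _ = _ := by ring

end Pool.Agent.V5helper83.PS
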